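import Pool.Agent.Helper517.FIrrA

set_option autoImplicit false

namespace Pool.Agent.Helper344HI

open Finset Pool.Agent.Helper517.FIrr

section gen

variable {k : ℕ} (F : SimpleGraph (Fin k)) {V : Type} [Fintype V] (G : SimpleGraph V)

/-- copies through `v`, avoiding `w`, with the neighbourhood of `v` replaced by `S` -/
def IsX (v w : V) (S : Set V) (φ : Fin k → V) : Prop :=
  Function.Injective φ ∧ (∃ a, φ a = v) ∧ (∀ a, φ a ≠ w) ∧
    ∀ b c, F.Adj b c → (φ b = v → φ c ∈ S) ∧ (φ b ≠ v → φ c ≠ v → G.Adj (φ b) (φ c))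

/-- those using the edge from `v` to `x` -/
def IsW (v w : V) (C : Set V) (x : V) (φ : Fin k → V) : Prop :=
  IsX F G v w (insert x C) φ ∧ ∃ a b, F.Adj a b ∧ φ a = v ∧ φ b = x

/-- an edge from `x` into `D` is used -/
def IsB (x : V) (D : Set V) (φ : Fin k → V) : Prop := ∃ b d, F.Adj b d ∧ φ b = x ∧ φ d ∈ D

open Classical in
noncomputable def X (v w : V) (S : Set V) : Finset (Fin k → V) := univ.filter (IsX F G v w S)

open Classical in
noncomputable def W (v w : V) (C : Set V) (x : V) : Finset (Fin k → V) :=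
  univ.filter (IsW F G v w C x)

open Classical in
noncomputable def Bo (v w : V) : Finset (Fin k → V) :=
  univ.filter (fun φ => IsEmb F G φ ∧ (∃ a, φ a = v) ∧ (∃ a, φ a = w))

theorem mem_X {v w : V} {S : Set V} {φ : Fin k → V} : φ ∈ X F G v w S ↔ IsX F G v w S φ := by
  simp [X]

theorem mem_W {v w x : V} {C : Set V} {φ : Fin k → V} :
    φ ∈ W F G v w C x ↔ IsW F G v w C x φ := by
  simp [W]

theorem Nf_left (v w : V) (hvw : v ≠ w) :
    Nf F G v = (Bo F G v w).card + (X F G v w {z | G.Adj v z}).card := by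
  classical
  rw [← Finset.card_union_of_disjoint]
  · unfold Nf
    congr 1
    ext φ
    rw [mem_Eset, mem_union, mem_X]
    simp only [Bo, mem_filter, mem_univ, true_and]
    constructor
    · rintro ⟨h1, h2⟩
      by_cases hw : ∃ a, φ a = w
      · exact Or.inl ⟨h1, h2, hw⟩
      · refine Or.inr ⟨h1.1, h2, fun a ha => hw ⟨a, ha⟩, fun b c hbc => ⟨fun hb => ?_, fun _ _ => h1.2 b c hbc⟩⟩
        have := h1.2 b c hbc
        rw [hb] at this
        exact this
    · rintro (⟨h1, h2, _⟩ | ⟨h1, h2, h3, h4⟩)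
      · exact ⟨h1, h2⟩
      · refine ⟨⟨h1, fun b c hbc => ?_⟩, h2⟩
        by_cases hb : φ b = v
        · have := (h4 b c hbc).1 hb
          rw [hb]
          exact this
        · by_cases hc : φ c = v
          · have := (h4 c b hbc.symm).1 hc
            rw [hc]
            exact this.symm
          · exact (h4 b c hbc).2 hb hc
  · rw [Finset.disjoint_left]
    intro φ h1 h2
    rw [mem_X] at h2
    simp only [Bo, mem_filter, mem_univ, true_and] at h1
    obtain ⟨_, _, a, ha⟩ := h1
    exact h2.2.2.1 a ha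

theorem X_swap_le (v w : V) (hvw : v ≠ w) (S : Set V) :
    (X F G w v S).card ≤ (X F G v w S).card := by
  classical
  apply Finset.card_le_card_of_injOn (fun φ => Equiv.swap v w ∘ φ)
  · intro φ hφ
    rw [Finset.mem_coe, mem_X] at hφ ⊢
    show IsX F G v w S (Equiv.swap v w ∘ φ)
    obtain ⟨h1, ⟨a, ha⟩, h3, h4⟩ := hφ
    have key : ∀ b, φ b ≠ w → (Equiv.swap v w ∘ φ) b = φ b := by
      intro b hb
      simp only [Function.comp]
      exact Equiv.swap_apply_of_ne_of_ne (h3 b) hb
    have key2 : ∀ b, φ b = w → (Equiv.swap v w ∘ φ) b = v := by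
      intro b hb
      simp only [Function.comp]
      rw [hb, Equiv.swap_apply_right]
    refine ⟨(Equiv.swap v w).injective.comp h1, ⟨a, key2 a ha⟩, ?_, ?_⟩
    · intro b hb
      by_cases h : φ b = w
      · rw [key2 b h] at hb
        exact hvw hb
      · rw [key b h] at hb
        exact h hb
    · intro b c hbc
      have hne : φ b ≠ φ c := fun h => hbc.ne (h1 h)
      by_cases hb : φ b = w
      · have hc : φ c ≠ w := fun h => hne (hb.trans h.symm)
        rw [key2 b hb, key c hc]
        exact ⟨fun _ => (h4 b c hbc).1 hb, fun h => absurd rfl h⟩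
      · rw [key b hb]
        by_cases hc : φ c = w
        · rw [key2 c hc]
          exact ⟨fun h => absurd h (h3 b), fun _ h => absurd rfl h⟩
        · rw [key c hc]
          exact ⟨fun h => absurd h (h3 b), fun _ _ => (h4 b c hbc).2 hb hc⟩
  · intro φ _ ψ _ h
    funext a
    exact (Equiv.swap v w).injective (congrFun h a)

theorem Nf_right (v w : V) (hvw : v ≠ w) :
    Nf F G w = (Bo F G v w).card + (X F G v w {z | G.Adj w z}).card := by
  classical
  rw [Nf_left F G w v hvw.symm]
  have h1 : Bo F G w v = Bo F G v w := by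
    ext φ
    simp only [Bo, mem_filter, mem_univ, true_and]
    tauto
  have h2 : (X F G w v {z | G.Adj w z}).card = (X F G v w {z | G.Adj w z}).card :=
    le_antisymm (X_swap_le F G v w hvw _) (X_swap_le F G w v hvw.symm _)
  rw [h1, h2]

theorem X_card_le (v w x : V) (C S : Set V)
    (hS : ∀ z, z ≠ v → z ≠ w → z ∈ S → z = x ∨ z ∈ C) :
    (X F G v w S).card ≤ (X F G v w C).card + (W F G v w C x).card := by
  classical
  refine (Finset.card_le_card ?_).trans (Finset.card_union_le _ _)
  intro φ hφ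
  rw [mem_X] at hφ
  rw [mem_union, mem_X, mem_W]
  obtain ⟨h1, h2, h3, h4⟩ := hφ
  have hx : ∀ b c, F.Adj b c → φ b = v → φ c = x ∨ φ c ∈ C := by
    intro b c hbc hb
    apply hS _ _ (h3 c) ((h4 b c hbc).1 hb)
    intro hc
    exact hbc.ne (h1 (hb.trans hc.symm))
  by_cases hu : ∃ a b, F.Adj a b ∧ φ a = v ∧ φ b = x
  · right
    exact ⟨⟨h1, h2, h3, fun b c hbc => ⟨fun hb => hx b c hbc hb, (h4 b c hbc).2⟩⟩, hu⟩
  · left
    refine ⟨h1, h2, h3, fun b c hbc => ⟨fun hb => ?_, (h4 b c hbc).2⟩⟩
    rcases hx b c hbc hb with h | h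
    · exact absurd ⟨b, c, hbc, hb, h⟩ hu
    · exact h

omit [Fintype V] in
theorem X_sub (v w : V) (C S : Set V) (hC : ∀ z, z ≠ v → z ≠ w → z ∈ C → z ∈ S) {φ : Fin k → V}
    (h : IsX F G v w C φ) : IsX F G v w S φ := by
  obtain ⟨h1, h2, h3, h4⟩ := h
  refine ⟨h1, h2, h3, fun b c hbc => ⟨fun hb => ?_, (h4 b c hbc).2⟩⟩
  apply hC _ _ (h3 c) ((h4 b c hbc).1 hb)
  intro hc
  exact hbc.ne (h1 (hb.trans hc.symm))

theorem X_card_ge (v w x : V) (C S : Set V) (hC : ∀ z, z ≠ v → z ≠ w → z ∈ C → z ∈ S)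
    (hx : x ∈ S) (hxC : x ∉ C) :
    (X F G v w C).card + (W F G v w C x).card ≤ (X F G v w S).card := by
  classical
  rw [← Finset.card_union_of_disjoint]
  · apply Finset.card_le_card
    apply Finset.union_subset
    · intro φ hφ
      rw [mem_X] at hφ ⊢
      exact X_sub F G v w C S hC hφ
    · intro φ hφ
      rw [mem_W] at hφ
      rw [mem_X]
      refine X_sub F G v w _ S ?_ hφ.1
      intro z hz hz' h
      rcases h with rfl | h
      · exact hx
      · exact hC z hz hz' h
  · rw [Finset.disjoint_left]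
    intro φ h1 h2
    rw [mem_X] at h1
    rw [mem_W] at h2
    obtain ⟨_, a, b, hab, ha, hb⟩ := h2
    have := (h1.2.2.2 a b hab).1 ha
    rw [hb] at this
    exact hxC this

theorem X_card_ge2 (v w x e : V) (C S : Set V) (hC : ∀ z, z ≠ v → z ≠ w → z ∈ C → z ∈ S)
    (hx : x ∈ S) (hxC : x ∉ C) (he : e ∈ S) (heC : e ∉ C) (hxe : x ≠ e) :
    (X F G v w C).card + (W F G v w C x).card + (W F G v w C e).card ≤ (X F G v w S).card := by
  classical
  rw [← Finset.card_union_of_disjoint, ← Finset.card_union_of_disjoint]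
  · apply Finset.card_le_card
    apply Finset.union_subset
    · apply Finset.union_subset
      · intro φ hφ
        rw [mem_X] at hφ ⊢
        exact X_sub F G v w C S hC hφ
      · intro φ hφ
        rw [mem_W] at hφ
        rw [mem_X]
        refine X_sub F G v w _ S ?_ hφ.1
        intro z hz hz' h
        rcases h with rfl | h
        · exact hx
        · exact hC z hz hz' h
    · intro φ hφ
      rw [mem_W] at hφ
      rw [mem_X]
      refine X_sub F G v w _ S ?_ hφ.1
      intro z hz hz' h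
      rcases h with rfl | h
      · exact he
      · exact hC z hz hz' h
  · rw [Finset.disjoint_left]
    intro φ h1 h2
    rw [mem_W] at h2
    obtain ⟨_, a, b, hab, ha, hb⟩ := h2
    rw [mem_union, mem_X, mem_W] at h1
    rcases h1 with h1 | h1
    · have := (h1.2.2.2 a b hab).1 ha
      rw [hb] at this
      exact heC this
    · have := (h1.1.2.2.2 a b hab).1 ha
      rw [hb] at this
      rcases this with h | h
      · exact hxe h.symm
      · exact heC h
  · rw [Finset.disjoint_left]
    intro φ h1 h2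
    rw [mem_X] at h1
    rw [mem_W] at h2
    obtain ⟨_, a, b, hab, ha, hb⟩ := h2
    have := (h1.2.2.2 a b hab).1 ha
    rw [hb] at this
    exact hxC this

/-- the vertices off `v, w, x, y` adjacent to `x` and not to `y` -/
def dl (v w x y : V) : Set V := {z | z ≠ v ∧ z ≠ w ∧ z ≠ x ∧ z ≠ y ∧ G.Adj x z ∧ ¬ G.Adj y z}

section exch

variable (v w x y : V) (C : Set V)

omit [Fintype V] in
theorem exch1 [DecidableEq V] (hxv : x ≠ v) (hyv : y ≠ v) (hxw : x ≠ w) (hyw : y ≠ w) (hxy : x ≠ y)
    (hxC : x ∉ C) (hyC : y ∉ C)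
    (hdom : ∀ z, z ≠ v → z ≠ w → z ≠ x → G.Adj y z → G.Adj x z) {φ : Fin k → V}
    (h : IsW F G v w C x φ) (hB : ¬ IsB F x (dl G v w x y) φ) :
    IsW F G v w C y (Equiv.swap x y ∘ φ) ∧ ¬ IsB F x (dl G v w x y) (Equiv.swap x y ∘ φ) := by
  obtain ⟨⟨h1, ⟨a, ha⟩, h3, h4⟩, a', b', hab', ha', hb'⟩ := h
  have kx : ∀ b, φ b = x → (Equiv.swap x y ∘ φ) b = y := by
    intro b hb
    simp only [Function.comp]
    rw [hb, Equiv.swap_apply_left]
  have ky : ∀ b, φ b = y → (Equiv.swap x y ∘ φ) b = x := by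
    intro b hb
    simp only [Function.comp]
    rw [hb, Equiv.swap_apply_right]
  have kn : ∀ b, φ b ≠ x → φ b ≠ y → (Equiv.swap x y ∘ φ) b = φ b := by
    intro b hb hb'
    simp only [Function.comp]
    exact Equiv.swap_apply_of_ne_of_ne hb hb'
  have kv : ∀ b, φ b = v → (Equiv.swap x y ∘ φ) b = v := by
    intro b hb
    rw [kn b (by rw [hb]; exact hxv.symm) (by rw [hb]; exact hyv.symm), hb]
  have kv' : ∀ b, (Equiv.swap x y ∘ φ) b = v → φ b = v := by
    intro b hb
    by_cases h1 : φ b = x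
    · rw [kx b h1] at hb
      exact absurd hb hyv
    · by_cases h2 : φ b = y
      · rw [ky b h2] at hb
        exact absurd hb hxv
      · rwa [kn b h1 h2] at hb
  have hne : ∀ b c, F.Adj b c → φ b ≠ φ c := fun b c hbc h => hbc.ne (h1 h)
  -- an edge at `x`
  have ex : ∀ b c, F.Adj b c → φ b = x → φ c ≠ v → G.Adj y ((Equiv.swap x y ∘ φ) c) := by
    intro b c hbc hb hc
    have hG : G.Adj (φ b) (φ c) := (h4 b c hbc).2 (by rw [hb]; exact hxv) hc
    rw [hb] at hG
    by_cases hcy : φ c = y
    · rw [ky c hcy]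
      rw [hcy] at hG
      exact hG.symm
    · have hcx : φ c ≠ x := fun h => hne b c hbc (hb.trans h.symm)
      rw [kn c hcx hcy]
      by_contra hcon
      exact hB ⟨b, c, hbc, hb, hc, h3 c, hcx, hcy, hG, hcon⟩
  have ey : ∀ b c, F.Adj b c → φ b = y → φ c ≠ v → G.Adj x ((Equiv.swap x y ∘ φ) c) := by
    intro b c hbc hb hc
    have hG : G.Adj (φ b) (φ c) := (h4 b c hbc).2 (by rw [hb]; exact hyv) hc
    rw [hb] at hG
    by_cases hcx : φ c = x
    · rw [kx c hcx]
      rw [hcx] at hG
      exact hG.symm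
    · have hcy : φ c ≠ y := fun h => hne b c hbc (hb.trans h.symm)
      rw [kn c hcx hcy]
      exact hdom _ hc (h3 c) hcx hG
  refine ⟨⟨⟨(Equiv.swap x y).injective.comp h1, ⟨a, kv a ha⟩, ?_, ?_⟩, a', b', hab', kv a' ha', kx b' hb'⟩, ?_⟩
  · intro b hb
    by_cases h1 : φ b = x
    · rw [kx b h1] at hb
      exact hyw hb
    · by_cases h2 : φ b = y
      · rw [ky b h2] at hb
        exact hxw hb
      · rw [kn b h1 h2] at hb
        exact h3 b hb
  · intro b c hbc
    constructor
    · intro hb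
      have hb2 := kv' b hb
      rcases (h4 b c hbc).1 hb2 with h | h
      · rw [kx c h]
        exact Or.inl rfl
      · have hcx : φ c ≠ x := fun h' => hxC (h' ▸ h)
        have hcy : φ c ≠ y := fun h' => hyC (h' ▸ h)
        rw [kn c hcx hcy]
        exact Or.inr h
    · intro hb hc
      have hb2 : φ b ≠ v := fun h => hb (kv b h)
      have hc2 : φ c ≠ v := fun h => hc (kv c h)
      by_cases hbx : φ b = x
      · rw [kx b hbx]
        exact ex b c hbc hbx hc2
      · by_cases hby : φ b = y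
        · rw [ky b hby]
          exact ey b c hbc hby hc2
        · by_cases hcx : φ c = x
          · rw [kx c hcx]
            exact (ex c b hbc.symm hcx hb2).symm
          · by_cases hcy : φ c = y
            · rw [ky c hcy]
              exact (ey c b hbc.symm hcy hb2).symm
            · rw [kn b hbx hby, kn c hcx hcy]
              exact (h4 b c hbc).2 hb2 hc2
  · rintro ⟨c, d, hcd, hc, hd1, hd2, hd3, hd4, hd5, hd6⟩
    have hcy : φ c = y := by
      by_cases h1 : φ c = x
      · rw [kx c h1] at hc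
        exact absurd hc.symm hxy
      · by_cases h2 : φ c = y
        · exact h2
        · rw [kn c h1 h2] at hc
          exact absurd hc h1
    have hdx : φ d ≠ x := fun h => hd4 (kx d h)
    have hdy : φ d ≠ y := fun h => hd3 (ky d h)
    rw [kn d hdx hdy] at hd1 hd6
    have hG : G.Adj (φ c) (φ d) := (h4 c d hcd).2 (by rw [hcy]; exact hyv) hd1
    rw [hcy] at hG
    exact hd6 hG

omit [Fintype V] in
theorem exch2 [DecidableEq V] (hxv : x ≠ v) (hyv : y ≠ v) (hxw : x ≠ w) (hyw : y ≠ w) (hxy : x ≠ y)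
    (hxC : x ∉ C) (hyC : y ∉ C)
    (hdom : ∀ z, z ≠ v → z ≠ w → z ≠ x → G.Adj y z → G.Adj x z) {φ : Fin k → V}
    (h : IsW F G v w C y φ) (hB : ¬ IsB F x (dl G v w x y) φ) :
    IsW F G v w C x (Equiv.swap x y ∘ φ) ∧ ¬ IsB F x (dl G v w x y) (Equiv.swap x y ∘ φ) := by
  obtain ⟨⟨h1, ⟨a, ha⟩, h3, h4⟩, a', b', hab', ha', hb'⟩ := h
  have kx : ∀ b, φ b = x → (Equiv.swap x y ∘ φ) b = y := by
    intro b hb
    simp only [Function.comp]
    rw [hb, Equiv.swap_apply_left]
  have ky : ∀ b, φ b = y → (Equiv.swap x y ∘ φ) b = x := by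
    intro b hb
    simp only [Function.comp]
    rw [hb, Equiv.swap_apply_right]
  have kn : ∀ b, φ b ≠ x → φ b ≠ y → (Equiv.swap x y ∘ φ) b = φ b := by
    intro b hb hb'
    simp only [Function.comp]
    exact Equiv.swap_apply_of_ne_of_ne hb hb'
  have kv : ∀ b, φ b = v → (Equiv.swap x y ∘ φ) b = v := by
    intro b hb
    rw [kn b (by rw [hb]; exact hxv.symm) (by rw [hb]; exact hyv.symm), hb]
  have kv' : ∀ b, (Equiv.swap x y ∘ φ) b = v → φ b = v := by
    intro b hb
    by_cases h1 : φ b = x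
    · rw [kx b h1] at hb
      exact absurd hb hyv
    · by_cases h2 : φ b = y
      · rw [ky b h2] at hb
        exact absurd hb hxv
      · rwa [kn b h1 h2] at hb
  have hne : ∀ b c, F.Adj b c → φ b ≠ φ c := fun b c hbc h => hbc.ne (h1 h)
  -- an edge at `x`
  have ex : ∀ b c, F.Adj b c → φ b = x → φ c ≠ v → G.Adj y ((Equiv.swap x y ∘ φ) c) := by
    intro b c hbc hb hc
    have hG : G.Adj (φ b) (φ c) := (h4 b c hbc).2 (by rw [hb]; exact hxv) hc
    rw [hb] at hG
    by_cases hcy : φ c = y
    · rw [ky c hcy]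
      rw [hcy] at hG
      exact hG.symm
    · have hcx : φ c ≠ x := fun h => hne b c hbc (hb.trans h.symm)
      rw [kn c hcx hcy]
      by_contra hcon
      exact hB ⟨b, c, hbc, hb, hc, h3 c, hcx, hcy, hG, hcon⟩
  have ey : ∀ b c, F.Adj b c → φ b = y → φ c ≠ v → G.Adj x ((Equiv.swap x y ∘ φ) c) := by
    intro b c hbc hb hc
    have hG : G.Adj (φ b) (φ c) := (h4 b c hbc).2 (by rw [hb]; exact hyv) hc
    rw [hb] at hG
    by_cases hcx : φ c = x
    · rw [kx c hcx]
      rw [hcx] at hG
      exact hG.symm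
    · have hcy : φ c ≠ y := fun h => hne b c hbc (hb.trans h.symm)
      rw [kn c hcx hcy]
      exact hdom _ hc (h3 c) hcx hG
  refine ⟨⟨⟨(Equiv.swap x y).injective.comp h1, ⟨a, kv a ha⟩, ?_, ?_⟩, a', b', hab', kv a' ha', ky b' hb'⟩, ?_⟩
  · intro b hb
    by_cases h1 : φ b = x
    · rw [kx b h1] at hb
      exact hyw hb
    · by_cases h2 : φ b = y
      · rw [ky b h2] at hb
        exact hxw hb
      · rw [kn b h1 h2] at hb
        exact h3 b hb
  · intro b c hbc
    constructor
    · intro hb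
      have hb2 := kv' b hb
      rcases (h4 b c hbc).1 hb2 with h | h
      · rw [ky c h]
        exact Or.inl rfl
      · have hcx : φ c ≠ x := fun h' => hxC (h' ▸ h)
        have hcy : φ c ≠ y := fun h' => hyC (h' ▸ h)
        rw [kn c hcx hcy]
        exact Or.inr h
    · intro hb hc
      have hb2 : φ b ≠ v := fun h => hb (kv b h)
      have hc2 : φ c ≠ v := fun h => hc (kv c h)
      by_cases hbx : φ b = x
      · rw [kx b hbx]
        exact ex b c hbc hbx hc2
      · by_cases hby : φ b = y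
        · rw [ky b hby]
          exact ey b c hbc hby hc2
        · by_cases hcx : φ c = x
          · rw [kx c hcx]
            exact (ex c b hbc.symm hcx hb2).symm
          · by_cases hcy : φ c = y
            · rw [ky c hcy]
              exact (ey c b hbc.symm hcy hb2).symm
            · rw [kn b hbx hby, kn c hcx hcy]
              exact (h4 b c hbc).2 hb2 hc2
  · rintro ⟨c, d, hcd, hc, hd1, hd2, hd3, hd4, hd5, hd6⟩
    have hcy : φ c = y := by
      by_cases h1 : φ c = x
      · rw [kx c h1] at hc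
        exact absurd hc.symm hxy
      · by_cases h2 : φ c = y
        · exact h2
        · rw [kn c h1 h2] at hc
          exact absurd hc h1
    have hdx : φ d ≠ x := fun h => hd4 (kx d h)
    have hdy : φ d ≠ y := fun h => hd3 (ky d h)
    rw [kn d hdx hdy] at hd1 hd6
    have hG : G.Adj (φ c) (φ d) := (h4 c d hcd).2 (by rw [hcy]; exact hyv) hd1
    rw [hcy] at hG
    exact hd6 hG

open Classical in
theorem exch (hxv : x ≠ v) (hyv : y ≠ v) (hxw : x ≠ w) (hyw : y ≠ w) (hxy : x ≠ y)
    (hxC : x ∉ C) (hyC : y ∉ C)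
    (hdom : ∀ z, z ≠ v → z ≠ w → z ≠ x → G.Adj y z → G.Adj x z) :
    (W F G v w C x).card + ((W F G v w C y).filter (IsB F x (dl G v w x y))).card =
    (W F G v w C y).card + ((W F G v w C x).filter (IsB F x (dl G v w x y))).card := by
  have e1 := Finset.card_filter_add_card_filter_not (s := W F G v w C x) (IsB F x (dl G v w x y))
  have e2 := Finset.card_filter_add_card_filter_not (s := W F G v w C y) (IsB F x (dl G v w x y))
  have e3 : ((W F G v w C x).filter (fun φ => ¬ IsB F x (dl G v w x y) φ)).card ≤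
      ((W F G v w C y).filter (fun φ => ¬ IsB F x (dl G v w x y) φ)).card := by
    apply Finset.card_le_card_of_injOn (fun φ => Equiv.swap x y ∘ φ)
    · intro φ hφ
      rw [Finset.mem_coe, mem_filter, mem_W] at hφ ⊢
      exact exch1 F G v w x y C hxv hyv hxw hyw hxy hxC hyC hdom hφ.1 hφ.2
    · intro φ _ ψ _ h
      funext a
      exact (Equiv.swap x y).injective (congrFun h a)
  have e4 : ((W F G v w C y).filter (fun φ => ¬ IsB F x (dl G v w x y) φ)).card ≤
      ((W F G v w C x).filter (fun φ => ¬ IsB F x (dl G v w x y) φ)).card := by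
    apply Finset.card_le_card_of_injOn (fun φ => Equiv.swap x y ∘ φ)
    · intro φ hφ
      rw [Finset.mem_coe, mem_filter, mem_W] at hφ ⊢
      exact exch2 F G v w x y C hxv hyv hxw hyw hxy hxC hyC hdom hφ.1 hφ.2
    · intro φ _ ψ _ h
      funext a
      exact (Equiv.swap x y).injective (congrFun h a)
  omega

end exch

end gen

end Pool.Agent.Helper344HI
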