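import Pool.Agent.Helper344_HI.A

set_option autoImplicit false

namespace Pool.Agent.Helper344HI

open Finset Pool.Agent.Helper517.FIrr

/-- functions with some values in prescribed sets -/
theorem card_pin {k r : ℕ} {V : Type} [Fintype V] (Q : Finset (Fin k → V)) (S : Fin r → Finset V)
    (h : ∀ φ ∈ Q, ∃ e : Fin r → Fin k, Function.Injective e ∧ ∀ i, φ (e i) ∈ S i) :
    Q.card ≤ k.descFactorial r * ((∏ i, (S i).card) * (Fintype.card V) ^ (k - r)) := by
  classical
  have hsub : Q ⊆ (univ : Finset (Fin r ↪ Fin k)).biUnion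
      (fun e => Fintype.piFinset (Function.extend e S (fun _ => univ))) := by
    intro φ hφ
    obtain ⟨e, he, hS⟩ := h φ hφ
    rw [mem_biUnion]
    refine ⟨⟨e, he⟩, mem_univ _, ?_⟩
    rw [Fintype.mem_piFinset]
    intro a
    by_cases ha : ∃ i, e i = a
    · obtain ⟨i, rfl⟩ := ha
      show φ (e i) ∈ Function.extend e S (fun _ => univ) (e i)
      rw [he.extend_apply]
      exact hS i
    · show φ a ∈ Function.extend e S (fun _ => univ) a
      rw [Function.extend_apply' _ _ _ ha]
      exact mem_univ _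
  refine (Finset.card_le_card hsub).trans (Finset.card_biUnion_le.trans ?_)
  have hc : ∀ e ∈ (univ : Finset (Fin r ↪ Fin k)),
      (Fintype.piFinset (Function.extend e S (fun _ => (univ : Finset V)))).card =
        (∏ i, (S i).card) * (Fintype.card V) ^ (k - r) := by
    intro e _
    rw [Fintype.card_piFinset, ← Finset.prod_mul_prod_compl (univ.image e)]
    congr 1
    · rw [Finset.prod_image (fun a _ b _ h => e.injective h)]
      refine Finset.prod_congr rfl (fun i _ => ?_)
      rw [e.injective.extend_apply]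
    · have : ∀ a ∈ (univ.image e)ᶜ,
          (Function.extend e S (fun _ => (univ : Finset V)) a).card = Fintype.card V := by
        intro a ha
        rw [Function.extend_apply']
        · rfl
        · rintro ⟨i, rfl⟩
          rw [mem_compl] at ha
          exact ha (mem_image_of_mem _ (mem_univ _))
      rw [Finset.prod_congr rfl this, Finset.prod_const, Finset.card_compl,
        Finset.card_image_of_injective _ e.injective, Finset.card_univ, Fintype.card_fin,
        Fintype.card_fin]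
  rw [Finset.sum_congr rfl hc, Finset.sum_const, Finset.card_univ, Fintype.card_embedding_eq,
    Fintype.card_fin, Fintype.card_fin, smul_eq_mul]

section gen

variable {k : ℕ} (F : SimpleGraph (Fin k)) {V : Type} [Fintype V] (G : SimpleGraph V)

open Classical in
theorem P_le (v w x : V) (C D : Set V) (Df : Finset V) (hD : ∀ z ∈ D, z ∈ Df)
    (hvx : v ≠ x) (hDv : v ∉ D) :
    ((W F G v w C x).filter (IsB F x D)).card ≤
      k.descFactorial 3 * (Df.card * (Fintype.card V) ^ (k - 3)) := by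
  have := card_pin ((W F G v w C x).filter (IsB F x D)) ![{v}, {x}, Df] ?_
  · rw [Fin.prod_univ_three] at this
    simpa using this
  · intro φ hφ
    rw [mem_filter, mem_W] at hφ
    obtain ⟨⟨⟨h1, _, _, _⟩, a, b, hab, ha, hb⟩, b', d, hbd, hb', hd⟩ := hφ
    have hbb : b' = b := h1 (hb'.trans hb.symm)
    subst hbb
    have hda : d ≠ a := by
      rintro rfl
      rw [ha] at hd
      exact hDv hd
    refine ⟨![a, b', d], ?_, ?_⟩
    · intro i j hij
      fin_cases i <;> fin_cases j <;> simp at hij ⊢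
      · exact hab.ne hij
      · exact hda hij.symm
      · exact hab.ne hij.symm
      · exact hbd.ne hij
      · exact hda hij
      · exact hbd.ne hij.symm
    · intro i
      fin_cases i
      · simp [ha]
      · simp [hb]
      · simpa using hD _ hd

open Classical in
theorem M_le (v w x y : V) (C D : Set V) (Df : Finset V) (hD : ∀ z ∈ D, z ∈ Df)
    (hvx : v ≠ x) (hxy : x ≠ y) (hDv : v ∉ D) (hDy : y ∉ D) :
    ((W F G v w C y).filter (IsB F x D)).card ≤
      k.descFactorial 4 * (Df.card * (Fintype.card V) ^ (k - 4)) := by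
  have := card_pin ((W F G v w C y).filter (IsB F x D)) ![{v}, {y}, {x}, Df] ?_
  · rw [Fin.prod_univ_four] at this
    simpa using this
  · intro φ hφ
    rw [mem_filter, mem_W] at hφ
    obtain ⟨⟨⟨h1, _, _, _⟩, a, b, hab, ha, hb⟩, c, d, hcd, hc, hd⟩ := hφ
    have hda : d ≠ a := by
      rintro rfl
      rw [ha] at hd
      exact hDv hd
    have hdb : d ≠ b := by
      rintro rfl
      rw [hb] at hd
      exact hDy hd
    have hca : c ≠ a := by
      rintro rfl
      exact hvx (ha.symm.trans hc)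
    have hcb : c ≠ b := by
      rintro rfl
      exact hxy (hc.symm.trans hb)
    refine ⟨![a, b, c, d], ?_, ?_⟩
    · intro i j hij
      fin_cases i <;> fin_cases j <;> simp at hij ⊢
      · exact hab.ne hij
      · exact hca hij.symm
      · exact hda hij.symm
      · exact hab.ne hij.symm
      · exact hcb hij.symm
      · exact hdb hij.symm
      · exact hca hij
      · exact hcb hij
      · exact hcd.ne hij
      · exact hda hij
      · exact hdb hij
      · exact hcd.ne hij.symm
    · intro i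
      fin_cases i
      · simp [ha]
      · simp [hb]
      · simp [hc]
      · simpa using hD _ hd

/-- the graph with the neighbourhood of `v` replaced by `S` -/
def Gm (v : V) (S : Set V) : SimpleGraph V where
  Adj a b := a ≠ b ∧ ((a = v ∧ b ∈ S) ∨ (b = v ∧ a ∈ S) ∨ (a ≠ v ∧ b ≠ v ∧ G.Adj a b))
  symm := ⟨by
    rintro a b ⟨h, h'⟩
    refine ⟨h.symm, ?_⟩
    rcases h' with h' | h' | h'
    · exact Or.inr (Or.inl h')
    · exact Or.inl h'
    · exact Or.inr (Or.inr ⟨h'.2.1, h'.1, h'.2.2.symm⟩)⟩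
  loopless := ⟨fun _ h => h.1 rfl⟩

omit [Fintype V] in
theorem IsX_of_emb (v w : V) (S : Set V) {φ : Fin k → V} (h : IsEmb F (Gm G v S) φ) (a : Fin k)
    (ha : φ a = v) (hw : ∀ a, φ a ≠ w) : IsX F G v w S φ := by
  refine ⟨h.1, ⟨a, ha⟩, hw, fun b c hbc => ⟨fun hb => ?_, fun hb hc => ?_⟩⟩
  · have hG := h.2 b c hbc
    obtain ⟨hne, h1 | h1 | h1⟩ := hG
    · exact h1.2
    · exact absurd (hb.trans h1.1.symm) hne
    · exact absurd hb h1.1
  · have hG := h.2 b c hbc
    obtain ⟨hne, h1 | h1 | h1⟩ := hG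
    · exact absurd h1.1 hb
    · exact absurd h1.1 hc
    · exact h1.2.2

theorem W_ge (v w e : V) (C : Set V) (a0 b0 : Fin k) (hab : F.Adj a0 b0) (T : Finset V)
    (hvw : v ≠ w) (hve : v ≠ e) (hwe : w ≠ e) (hTv : v ∉ T) (hTw : w ∉ T)
    (hTC : ∀ t ∈ T, t ∈ C) (hTe : ∀ t ∈ T, G.Adj e t)
    (hT : ∀ s ∈ T, ∀ t ∈ T, s ≠ t → G.Adj s t) :
    T.card.descFactorial (k - 2) ≤ (W F G v w C e).card := by
  classical
  have hne : a0 ≠ b0 := hab.ne
  have hP : ({a0, b0} : Finset (Fin k)).card = 2 := Finset.card_pair hne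
  rw [← hP]
  obtain ⟨φ0, f1, f2⟩ : ∃ φ0 : Fin k → V, φ0 a0 = v ∧ φ0 b0 = e :=
    ⟨fun i => if i = a0 then v else e, by simp, by simp [hne.symm]⟩
  apply card_pinned F (Gm G v (insert e C)) {a0, b0} φ0 T
  · intro a ha b hb h
    rw [mem_insert, mem_singleton] at ha hb
    rcases ha with rfl | rfl <;> rcases hb with rfl | rfl
    · rfl
    · rw [f1, f2] at h
      exact absurd h hve
    · rw [f1, f2] at h
      exact absurd h.symm hve
    · rfl
  · intro a ha
    rw [mem_insert, mem_singleton] at ha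
    rcases ha with rfl | rfl
    · rw [f1]
      exact hTv
    · rw [f2]
      intro h
      exact (hTe _ h).ne rfl
  · intro a ha b hb h
    rw [mem_insert, mem_singleton] at ha hb
    rcases ha with rfl | rfl <;> rcases hb with rfl | rfl
    · exact absurd rfl h.ne
    · rw [f1, f2]
      exact ⟨hve, Or.inl ⟨rfl, Or.inl rfl⟩⟩
    · rw [f1, f2]
      exact ⟨hve.symm, Or.inr (Or.inl ⟨rfl, Or.inl rfl⟩)⟩
    · exact absurd rfl h.ne
  · intro a ha b _ _ t ht
    have htv : t ≠ v := by
      rintro rfl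
      exact hTv ht
    rw [mem_insert, mem_singleton] at ha
    rcases ha with rfl | rfl
    · rw [f1]
      exact ⟨htv.symm, Or.inl ⟨rfl, Or.inr (hTC t ht)⟩⟩
    · rw [f2]
      exact ⟨(hTe t ht).ne, Or.inr (Or.inr ⟨hve.symm, htv, hTe t ht⟩)⟩
  · intro s hs t ht hst
    refine ⟨hst, Or.inr (Or.inr ⟨?_, ?_, hT s hs t ht hst⟩)⟩
    · rintro rfl
      exact hTv hs
    · rintro rfl
      exact hTv ht
  · intro φ hφ hP hT'
    have ha : φ a0 = v := by
      rw [hP a0 (by simp)]
      exact f1
    have hb : φ b0 = e := by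
      rw [hP b0 (by simp)]
      exact f2
    rw [mem_W]
    refine ⟨IsX_of_emb F G v w _ hφ a0 ha ?_, a0, b0, hab, ha, hb⟩
    intro c hc
    by_cases hcP : c ∈ ({a0, b0} : Finset (Fin k))
    · rw [mem_insert, mem_singleton] at hcP
      rcases hcP with rfl | rfl
      · exact hvw (ha.symm.trans hc)
      · exact hwe (hc.symm.trans hb)
    · have := hT' c hcP
      rw [hc] at this
      exact hTw this

open Classical in
theorem P_ge (v w x : V) (C : Set V) (D : Set V) (Df : Finset V) (hD : ∀ z ∈ Df, z ∈ D)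
    (a0 b0 d0 : Fin k) (hab : F.Adj a0 b0) (hbd : F.Adj b0 d0) (had : a0 ≠ d0) (T : Finset V)
    (hvw : v ≠ w) (hvx : v ≠ x) (hwx : w ≠ x) (hTv : v ∉ T) (hTw : w ∉ T)
    (hTC : ∀ t ∈ T, t ∈ C) (hTx : ∀ t ∈ T, G.Adj x t)
    (hT : ∀ s ∈ T, ∀ t ∈ T, s ≠ t → G.Adj s t) (hDC : ∀ z ∈ Df, z ∈ C)
    (hDx : ∀ z ∈ Df, G.Adj x z) (hDT : ∀ z ∈ Df, ∀ t ∈ T, G.Adj z t) (hDv : v ∉ Df)
    (hDw : w ∉ Df) :
    T.card.descFactorial (k - 3) * Df.card ≤ ((W F G v w C x).filter (IsB F x D)).card := by
  have h3 : ({a0, b0, d0} : Finset (Fin k)).card = 3 := by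
    rw [Finset.card_eq_three]
    exact ⟨a0, b0, d0, hab.ne, had, hbd.ne, rfl⟩
  refine le_trans ?_ (Finset.card_le_card (Finset.filter_subset (fun φ => φ d0 ∈ Df) _))
  apply Finset.mul_card_image_le_card_of_maps_to (f := fun φ : Fin k → V => φ d0)
  · intro φ hφ
    exact (mem_filter.1 hφ).2
  · intro z hz
    have hzv : z ≠ v := by
      rintro rfl
      exact hDv hz
    have hzw : z ≠ w := by
      rintro rfl
      exact hDw hz
    have hxz := hDx z hz
    rw [← h3]
    have hba : b0 ≠ a0 := hab.ne.symm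
    have hda : d0 ≠ a0 := had.symm
    have hdb : d0 ≠ b0 := hbd.ne.symm
    obtain ⟨φ0, f1, f2, f3⟩ : ∃ φ0 : Fin k → V, φ0 a0 = v ∧ φ0 b0 = x ∧ φ0 d0 = z :=
      ⟨fun i => if i = a0 then v else if i = b0 then x else z, by simp, by simp [hba],
        by simp [hda, hdb]⟩
    apply card_pinned F (Gm G v (insert x C)) {a0, b0, d0} φ0 T
    · intro a ha b hb h
      rw [mem_insert, mem_insert, mem_singleton] at ha hb
      rcases ha with rfl | rfl | rfl <;> rcases hb with rfl | rfl | rfl
      · rfl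
      · rw [f1, f2] at h
        exact absurd h hvx
      · rw [f1, f3] at h
        exact absurd h.symm hzv
      · rw [f1, f2] at h
        exact absurd h.symm hvx
      · rfl
      · rw [f2, f3] at h
        exact absurd h hxz.ne
      · rw [f1, f3] at h
        exact absurd h hzv
      · rw [f2, f3] at h
        exact absurd h.symm hxz.ne
      · rfl
    · intro a ha
      rw [mem_insert, mem_insert, mem_singleton] at ha
      rcases ha with rfl | rfl | rfl
      · rw [f1]
        exact hTv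
      · rw [f2]
        intro h
        exact (hTx _ h).ne rfl
      · rw [f3]
        intro h
        exact (hDT z hz _ h).ne rfl
    · intro a ha b hb h
      rw [mem_insert, mem_insert, mem_singleton] at ha hb
      rcases ha with rfl | rfl | rfl <;> rcases hb with rfl | rfl | rfl
      · exact absurd rfl h.ne
      · rw [f1, f2]
        exact ⟨hvx, Or.inl ⟨rfl, Or.inl rfl⟩⟩
      · rw [f1, f3]
        exact ⟨hzv.symm, Or.inl ⟨rfl, Or.inr (hDC z hz)⟩⟩
      · rw [f1, f2]
        exact ⟨hvx.symm, Or.inr (Or.inl ⟨rfl, Or.inl rfl⟩)⟩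
      · exact absurd rfl h.ne
      · rw [f2, f3]
        exact ⟨hxz.ne, Or.inr (Or.inr ⟨hvx.symm, hzv, hxz⟩)⟩
      · rw [f1, f3]
        exact ⟨hzv, Or.inr (Or.inl ⟨rfl, Or.inr (hDC z hz)⟩)⟩
      · rw [f2, f3]
        exact ⟨hxz.ne.symm, Or.inr (Or.inr ⟨hzv, hvx.symm, hxz.symm⟩)⟩
      · exact absurd rfl h.ne
    · intro a ha b _ _ t ht
      have htv : t ≠ v := by
        rintro rfl
        exact hTv ht
      rw [mem_insert, mem_insert, mem_singleton] at ha
      rcases ha with rfl | rfl | rfl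
      · rw [f1]
        exact ⟨htv.symm, Or.inl ⟨rfl, Or.inr (hTC t ht)⟩⟩
      · rw [f2]
        exact ⟨(hTx t ht).ne, Or.inr (Or.inr ⟨hvx.symm, htv, hTx t ht⟩)⟩
      · rw [f3]
        exact ⟨(hDT z hz t ht).ne, Or.inr (Or.inr ⟨hzv, htv, hDT z hz t ht⟩)⟩
    · intro s hs t ht hst
      refine ⟨hst, Or.inr (Or.inr ⟨?_, ?_, hT s hs t ht hst⟩)⟩
      · rintro rfl
        exact hTv hs
      · rintro rfl
        exact hTv ht
    · intro φ hφ hP hT'
      have ha : φ a0 = v := by
        rw [hP a0 (by simp)]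
        exact f1
      have hb : φ b0 = x := by
        rw [hP b0 (by simp)]
        exact f2
      have hd : φ d0 = z := by
        rw [hP d0 (by simp)]
        exact f3
      rw [mem_filter, mem_filter, mem_filter, mem_W]
      refine ⟨⟨⟨⟨IsX_of_emb F G v w _ hφ a0 ha ?_, a0, b0, hab, ha, hb⟩,
        b0, d0, hbd, hb, by rw [hd]; exact hD z hz⟩, by rw [hd]; exact hz⟩, hd⟩
      intro c hc
      by_cases hcP : c ∈ ({a0, b0, d0} : Finset (Fin k))
      · rw [mem_insert, mem_insert, mem_singleton] at hcP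
        rcases hcP with rfl | rfl | rfl
        · exact hvw (ha.symm.trans hc)
        · exact hwx (hc.symm.trans hb)
        · exact hzw (hd.symm.trans hc)
      · have := hT' c hcP
        rw [hc] at this
        exact hTw this

open Classical in
/-- when `F` has no two adjacent edges -/
theorem M_pos (v w x y z : V) (C : Set V) (D : Set V) (hz : z ∈ D)
    (hM : ∀ a b c, F.Adj a b → F.Adj b c → a = c)
    (a0 b0 c0 d0 : Fin k) (hab : F.Adj a0 b0) (hcd : F.Adj c0 d0) (hac : a0 ≠ c0) (had : a0 ≠ d0)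
    (hbc : b0 ≠ c0) (hbd : b0 ≠ d0) (T : Finset V)
    (hvw : v ≠ w) (hvx : v ≠ x) (hwx : w ≠ x) (hvy : v ≠ y) (hwy : w ≠ y) (hxy : x ≠ y)
    (hzv : z ≠ v) (hzw : z ≠ w) (hzy : z ≠ y) (hxz : G.Adj x z)
    (hTv : v ∉ T) (hTw : w ∉ T) (hTx : x ∉ T) (hTy : y ∉ T) (hTz : z ∉ T)
    (hT : ∀ s ∈ T, ∀ t ∈ T, s ≠ t → G.Adj s t) (hk : k - 4 ≤ T.card) :
    0 < ((W F G v w C y).filter (IsB F x D)).card := by
  have h4 : ({a0, b0, c0, d0} : Finset (Fin k)).card = 4 := by
    rw [Finset.card_insert_of_notMem, Finset.card_insert_of_notMem, Finset.card_pair hcd.ne]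
    · rw [mem_insert, mem_singleton]
      rintro (h | h)
      · exact hbc h
      · exact hbd h
    · rw [mem_insert, mem_insert, mem_singleton]
      rintro (h | h | h)
      · exact hab.ne h
      · exact hac h
      · exact had h
  have hpos : 0 < T.card.descFactorial (k - 4) := by
    rw [Nat.pos_iff_ne_zero, Ne, Nat.descFactorial_eq_zero_iff_lt]
    omega
  refine lt_of_lt_of_le hpos ?_
  rw [← h4]
  have hba : b0 ≠ a0 := hab.ne.symm
  have hca : c0 ≠ a0 := hac.symm
  have hcb : c0 ≠ b0 := hbc.symm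
  have hda : d0 ≠ a0 := had.symm
  have hdb : d0 ≠ b0 := hbd.symm
  have hdc : d0 ≠ c0 := hcd.ne.symm
  obtain ⟨φ0, f1, f2, f3, f4⟩ : ∃ φ0 : Fin k → V, φ0 a0 = v ∧ φ0 b0 = y ∧ φ0 c0 = x ∧
      φ0 d0 = z :=
    ⟨fun i => if i = a0 then v else if i = b0 then y else if i = c0 then x else z, by simp,
      by simp [hba], by simp [hca, hcb], by simp [hda, hdb, hdc]⟩
  apply card_pinned F (Gm G v (insert y C)) {a0, b0, c0, d0} φ0 T
  · intro a ha b hb h
    rw [mem_insert, mem_insert, mem_insert, mem_singleton] at ha hb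
    rcases ha with rfl | rfl | rfl | rfl <;> rcases hb with rfl | rfl | rfl | rfl
    · rfl
    · rw [f1, f2] at h
      exact absurd h hvy
    · rw [f1, f3] at h
      exact absurd h hvx
    · rw [f1, f4] at h
      exact absurd h.symm hzv
    · rw [f1, f2] at h
      exact absurd h.symm hvy
    · rfl
    · rw [f2, f3] at h
      exact absurd h.symm hxy
    · rw [f2, f4] at h
      exact absurd h.symm hzy
    · rw [f1, f3] at h
      exact absurd h.symm hvx
    · rw [f2, f3] at h
      exact absurd h hxy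
    · rfl
    · rw [f3, f4] at h
      exact absurd h hxz.ne
    · rw [f1, f4] at h
      exact absurd h hzv
    · rw [f2, f4] at h
      exact absurd h hzy
    · rw [f3, f4] at h
      exact absurd h.symm hxz.ne
    · rfl
  · intro a ha
    rw [mem_insert, mem_insert, mem_insert, mem_singleton] at ha
    rcases ha with rfl | rfl | rfl | rfl
    · rw [f1]
      exact hTv
    · rw [f2]
      exact hTy
    · rw [f3]
      exact hTx
    · rw [f4]
      exact hTz
  · intro a ha b hb h
    rw [mem_insert, mem_insert, mem_insert, mem_singleton] at ha hb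
    rcases ha with rfl | rfl | rfl | rfl <;> rcases hb with rfl | rfl | rfl | rfl
    · exact absurd rfl h.ne
    · rw [f1, f2]
      exact ⟨hvy, Or.inl ⟨rfl, Or.inl rfl⟩⟩
    · exact absurd (hM _ _ _ hab.symm h) hbc
    · exact absurd (hM _ _ _ hab.symm h) hbd
    · rw [f1, f2]
      exact ⟨hvy.symm, Or.inr (Or.inl ⟨rfl, Or.inl rfl⟩)⟩
    · exact absurd rfl h.ne
    · exact absurd (hM _ _ _ hab h) hac
    · exact absurd (hM _ _ _ hab h) had
    · exact absurd (hM _ _ _ hcd.symm h) hda
    · exact absurd (hM _ _ _ hcd.symm h) hdb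
    · exact absurd rfl h.ne
    · rw [f3, f4]
      exact ⟨hxz.ne, Or.inr (Or.inr ⟨hvx.symm, hzv, hxz⟩)⟩
    · exact absurd (hM _ _ _ hcd h) hca
    · exact absurd (hM _ _ _ hcd h) hcb
    · rw [f3, f4]
      exact ⟨hxz.ne.symm, Or.inr (Or.inr ⟨hzv, hvx.symm, hxz.symm⟩)⟩
    · exact absurd rfl h.ne
  · intro a ha b hb hF t ht
    exfalso
    rw [mem_insert, mem_insert, mem_insert, mem_singleton] at ha hb
    push Not at hb
    rcases ha with rfl | rfl | rfl | rfl
    · exact hb.2.1 (hM _ _ _ hab.symm hF).symm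
    · exact hb.1 (hM _ _ _ hab hF).symm
    · exact hb.2.2.2 (hM _ _ _ hcd.symm hF).symm
    · exact hb.2.2.1 (hM _ _ _ hcd hF).symm
  · intro s hs t ht hst
    refine ⟨hst, Or.inr (Or.inr ⟨?_, ?_, hT s hs t ht hst⟩)⟩
    · rintro rfl
      exact hTv hs
    · rintro rfl
      exact hTv ht
  · intro φ hφ hP hT'
    have ha : φ a0 = v := by
      rw [hP a0 (by simp)]
      exact f1
    have hb : φ b0 = y := by
      rw [hP b0 (by simp)]
      exact f2
    have hc : φ c0 = x := by
      rw [hP c0 (by simp)]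
      exact f3
    have hd : φ d0 = z := by
      rw [hP d0 (by simp)]
      exact f4
    rw [mem_filter, mem_W]
    refine ⟨⟨IsX_of_emb F G v w _ hφ a0 ha ?_, a0, b0, hab, ha, hb⟩,
      c0, d0, hcd, hc, by rw [hd]; exact hz⟩
    intro i hi
    by_cases hcP : i ∈ ({a0, b0, c0, d0} : Finset (Fin k))
    · rw [mem_insert, mem_insert, mem_insert, mem_singleton] at hcP
      rcases hcP with rfl | rfl | rfl | rfl
      · exact hvw (ha.symm.trans hi)
      · exact hwy (hi.symm.trans hb)
      · exact hwx (hi.symm.trans hc)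
      · exact hzw (hd.symm.trans hi)
    · have := hT' i hcP
      rw [hi] at this
      exact hTw this

/-- strict nested comparison -/
theorem Nf_lt_nested (v u z : V) (huv : u ≠ v) (hdom : ∀ t, t ≠ v → G.Adj u t → G.Adj v t)
    (hvz : G.Adj v z) (huz : ¬ G.Adj u z) (hzu : z ≠ u) (a0 b0 : Fin k) (hab : F.Adj a0 b0)
    (T : Finset V) (hTu : u ∉ T) (hTv : ∀ t ∈ T, G.Adj v t) (hTz : ∀ t ∈ T, G.Adj z t)
    (hT : ∀ s ∈ T, ∀ t ∈ T, s ≠ t → G.Adj s t) (hk : k - 2 ≤ T.card) :
    Nf F G u < Nf F G v := by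
  classical
  apply Nf_lt_of_dom F G v u huv hdom
  have hne : a0 ≠ b0 := hab.ne
  have hP : ({a0, b0} : Finset (Fin k)).card = 2 := Finset.card_pair hne
  obtain ⟨φ0, f1, f2⟩ : ∃ φ0 : Fin k → V, φ0 a0 = v ∧ φ0 b0 = z :=
    ⟨fun i => if i = a0 then v else z, by simp, by simp [hne.symm]⟩
  have key := card_pinned F G {a0, b0} φ0 T ?_ ?_ ?_ ?_ hT
    (univ.filter (fun φ => IsEmb F G φ ∧ (∀ a, φ a ≠ u) ∧ ∃ a b, F.Adj a b ∧ φ a = v ∧
      ¬ G.Adj u (φ b))) ?_
  · rw [hP] at key
    have hpos : 0 < T.card.descFactorial (k - 2) := by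
      rw [Nat.pos_iff_ne_zero, Ne, Nat.descFactorial_eq_zero_iff_lt]
      omega
    obtain ⟨φ, hφ⟩ := Finset.card_pos.1 (lt_of_lt_of_le hpos key)
    exact ⟨φ, (mem_filter.1 hφ).2⟩
  · intro a ha b hb h
    rw [mem_insert, mem_singleton] at ha hb
    rcases ha with rfl | rfl <;> rcases hb with rfl | rfl
    · rfl
    · rw [f1, f2] at h
      exact absurd h hvz.ne
    · rw [f1, f2] at h
      exact absurd h.symm hvz.ne
    · rfl
  · intro a ha
    rw [mem_insert, mem_singleton] at ha
    rcases ha with rfl | rfl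
    · rw [f1]
      intro h
      exact (hTv _ h).ne rfl
    · rw [f2]
      intro h
      exact (hTz _ h).ne rfl
  · intro a ha b hb h
    rw [mem_insert, mem_singleton] at ha hb
    rcases ha with rfl | rfl <;> rcases hb with rfl | rfl
    · exact absurd rfl h.ne
    · rw [f1, f2]
      exact hvz
    · rw [f1, f2]
      exact hvz.symm
    · exact absurd rfl h.ne
  · intro a ha b _ _ t ht
    rw [mem_insert, mem_singleton] at ha
    rcases ha with rfl | rfl
    · rw [f1]
      exact hTv t ht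
    · rw [f2]
      exact hTz t ht
  · intro φ hφ hP' hT'
    have ha : φ a0 = v := by
      rw [hP' a0 (by simp)]
      exact f1
    have hb : φ b0 = z := by
      rw [hP' b0 (by simp)]
      exact f2
    rw [mem_filter]
    refine ⟨mem_univ _, hφ, ?_, a0, b0, hab, ha, by rw [hb]; exact huz⟩
    intro c hc
    by_cases hcP : c ∈ ({a0, b0} : Finset (Fin k))
    · rw [mem_insert, mem_singleton] at hcP
      rcases hcP with rfl | rfl
      · exact huv (hc.symm.trans ha)
      · exact hzu (hb.symm.trans hc)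
    · have := hT' c hcP
      rw [hc] at this
      exact hTu this

end gen

end Pool.Agent.Helper344HI
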