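import Pool.Agent.Helper344_HI.B

set_option autoImplicit false

namespace Pool.Agent.Helper344HI

open Finset Pool.Agent.Helper517.FIrr

section gen

variable {k : ℕ} (F : SimpleGraph (Fin k)) {V : Type} [Fintype V] (G : SimpleGraph V)

/-- common neighbours -/
def CN (v w : V) : Set V := {z | G.Adj v z ∧ G.Adj w z}

theorem two_extra (v w x e y : V) (hvw : v ≠ w) (hx : G.Adj v x) (hx' : ¬ G.Adj w x)
    (he : G.Adj v e) (he' : ¬ G.Adj w e) (hxe : x ≠ e)
    (hy : ∀ z, z ≠ v → z ≠ w → G.Adj w z → z = y ∨ G.Adj v z)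
    (hW : (W F G v w (CN G v w) y).card <
      (W F G v w (CN G v w) x).card + (W F G v w (CN G v w) e).card) :
    Nf F G w < Nf F G v := by
  rw [Nf_left F G v w hvw, Nf_right F G v w hvw]
  have h1 := X_card_le F G v w y (CN G v w) {z | G.Adj w z} (by
    intro z hz hz' h
    rcases hy z hz hz' h with h' | h'
    · exact Or.inl h'
    · exact Or.inr ⟨h', h⟩)
  have h2 := X_card_ge2 F G v w x e (CN G v w) {z | G.Adj v z} (fun z _ _ h => h.1)
    hx (fun h => hx' h.2) he (fun h => he' h.2) hxe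
  omega

theorem one_extra (v w x y : V) (hvw : v ≠ w) (hx : G.Adj v x) (hx' : ¬ G.Adj w x)
    (hy0 : G.Adj w y) (hy' : ¬ G.Adj v y)
    (hy : ∀ z, z ≠ v → z ≠ w → G.Adj w z → z = y ∨ G.Adj v z)
    (hxx : ∀ z, z ≠ v → z ≠ w → G.Adj v z → z = x ∨ G.Adj w z) :
    Nf F G v + (W F G v w (CN G v w) y).card = Nf F G w + (W F G v w (CN G v w) x).card := by
  rw [Nf_left F G v w hvw, Nf_right F G v w hvw]
  have h1 := X_card_le F G v w y (CN G v w) {z | G.Adj w z} (by
    intro z hz hz' h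
    rcases hy z hz hz' h with h' | h'
    · exact Or.inl h'
    · exact Or.inr ⟨h', h⟩)
  have h2 := X_card_le F G v w x (CN G v w) {z | G.Adj v z} (by
    intro z hz hz' h
    rcases hxx z hz hz' h with h' | h'
    · exact Or.inl h'
    · exact Or.inr ⟨h, h'⟩)
  have h3 := X_card_ge F G v w x (CN G v w) {z | G.Adj v z} (fun z _ _ h => h.1)
    hx (fun h => hx' h.2)
  have h4 := X_card_ge F G v w y (CN G v w) {z | G.Adj w z} (fun z _ _ h => h.2)
    hy0 (fun h => hy' h.1)
  omega

end gen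

/-- the vertices: a clique of size `b + τ` and an independent set of size `b` -/
abbrev Vt (b τ : ℕ) := Fin (b + τ) ⊕ Fin b

/-- the graph -/
def HG (b τ : ℕ) : SimpleGraph (Vt b τ) where
  Adj x y := match x, y with
    | .inl p, .inl q => p ≠ q
    | .inl p, .inr i => p.1 < i.1 + 1 + τ ∧ p.1 ≠ i.1 + 1
    | .inr i, .inl p => p.1 < i.1 + 1 + τ ∧ p.1 ≠ i.1 + 1
    | .inr _, .inr _ => False
  symm := ⟨by
    rintro (p | i) (q | j) h
    · exact fun h' => h h'.symm
    · exact h
    · exact h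
    · exact h⟩
  loopless := ⟨by
    rintro (p | i) h
    · exact h rfl
    · exact h⟩

section HG

variable {b τ : ℕ}

theorem all (p q : Fin (b + τ)) : (HG b τ).Adj (.inl p) (.inl q) ↔ p ≠ q := Iff.rfl

theorem alr (p : Fin (b + τ)) (i : Fin b) :
    (HG b τ).Adj (.inl p) (.inr i) ↔ p.1 < i.1 + 1 + τ ∧ p.1 ≠ i.1 + 1 := Iff.rfl

theorem arl (p : Fin (b + τ)) (i : Fin b) :
    (HG b τ).Adj (.inr i) (.inl p) ↔ p.1 < i.1 + 1 + τ ∧ p.1 ≠ i.1 + 1 := Iff.rfl

theorem arr (i j : Fin b) : ¬ (HG b τ).Adj (.inr i) (.inr j) := fun h => h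

/-- clique vertices with index `< m`, off `D` -/
def TT (b τ m : ℕ) (D : Finset ℕ) : Finset (Vt b τ) :=
  (univ.filter (fun p : Fin (b + τ) => p.1 < m ∧ p.1 ∉ D)).map Function.Embedding.inl

theorem mem_TT {m : ℕ} {D : Finset ℕ} {z : Vt b τ} :
    z ∈ TT b τ m D ↔ ∃ p : Fin (b + τ), z = .inl p ∧ p.1 < m ∧ p.1 ∉ D := by
  unfold TT
  rw [mem_map]
  constructor
  · rintro ⟨p, hp, rfl⟩
    exact ⟨p, rfl, (mem_filter.1 hp).2⟩
  · rintro ⟨p, rfl, hp⟩
    exact ⟨p, mem_filter.2 ⟨mem_univ _, hp⟩, rfl⟩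

theorem card_TT {m : ℕ} (hm : m ≤ b + τ) (D : Finset ℕ) : m - D.card ≤ (TT b τ m D).card := by
  unfold TT
  rw [card_map]
  have h1 : (range m \ D) ⊆
      (univ.filter (fun p : Fin (b + τ) => p.1 < m ∧ p.1 ∉ D)).image Fin.val := by
    intro r hr
    rw [mem_sdiff, mem_range] at hr
    rw [mem_image]
    exact ⟨⟨r, by omega⟩, mem_filter.2 ⟨mem_univ _, hr.1, hr.2⟩, rfl⟩
  have h2 := Finset.le_card_sdiff D (range m)
  rw [card_range] at h2
  exact h2.trans ((Finset.card_le_card h1).trans Finset.card_image_le)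

theorem TT_clique {m : ℕ} {D : Finset ℕ} :
    ∀ s ∈ TT b τ m D, ∀ t ∈ TT b τ m D, s ≠ t → (HG b τ).Adj s t := by
  intro s hs t ht hst
  rw [mem_TT] at hs ht
  obtain ⟨p, rfl, _⟩ := hs
  obtain ⟨q, rfl, _⟩ := ht
  rw [all]
  rintro rfl
  exact hst rfl

theorem card_le_two (a b : ℕ) : ({a, b} : Finset ℕ).card ≤ 2 := Finset.card_le_two
theorem card_le_three (a b c : ℕ) : ({a, b, c} : Finset ℕ).card ≤ 3 := Finset.card_le_three
theorem card_le_four (a b c d : ℕ) : ({a, b, c, d} : Finset ℕ).card ≤ 4 := Finset.card_le_four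

/-- the numerical conditions -/
structure Num (k b τ : ℕ) : Prop where
  k3 : 3 ≤ k
  kt : k + 4 ≤ τ
  tb : 2 * τ ≤ b
  n1 : k.descFactorial 4 * (b + τ + b) ^ (k - 4) < (τ - 4).descFactorial (k - 3)
  n2 : k.descFactorial 4 * ((b + τ + b) * (b + τ + b) ^ (k - 4)) < (τ - 4).descFactorial (k - 2)
  n3 : 2 * (k.descFactorial 3 * (τ * (b + τ + b) ^ (k - 3))) < (b - 4).descFactorial (k - 2)

theorem card_Vt : Fintype.card (Vt b τ) = b + τ + b := by
  rw [Fintype.card_sum, Fintype.card_fin, Fintype.card_fin]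

theorem dF_mono {m n : ℕ} (h : m ≤ n) (r : ℕ) : m.descFactorial r ≤ n.descFactorial r :=
  Nat.descFactorial_le r h

variable {k : ℕ} (F : SimpleGraph (Fin k))

/-- case 1 -/
theorem case1 (hN : Num k b τ) (a0 b0 : Fin k) (hab : F.Adj a0 b0) (p : Fin (b + τ)) (i : Fin b) :
    Nf F (HG b τ) (.inr i) < Nf F (HG b τ) (.inl p) := by
  have hk := hN.kt
  have hb := hN.tb
  have hdom : ∀ t : Vt b τ, t ≠ .inl p → (HG b τ).Adj (.inr i) t → (HG b τ).Adj (.inl p) t := by
    rintro (r | l) ht h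
    · rw [all]
      rintro rfl
      exact ht rfl
    · exact absurd h (arr _ _)
  by_cases hpi : p.1 = i.1 + 1
  · -- a neighbour in the independent part
    obtain ⟨l, hl1, hl2⟩ : ∃ l : Fin b, l.1 ≠ i.1 ∧ i.1 ≤ l.1 + 1 := by
      by_cases hi : i.1 = 0
      · exact ⟨⟨1, by omega⟩, by simp only; omega, by simp only; omega⟩
      · exact ⟨⟨i.1 - 1, by omega⟩, by simp only; omega, by simp only; omega⟩
    apply Nf_lt_nested F (HG b τ) (.inl p) (.inr i) (.inr l) (by simp) hdom
      (by rw [alr]; omega) (arr _ _) (by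
        intro h
        exact hl1 (congrArg Fin.val (Sum.inr_injective h))) a0 b0 hab
      (TT b τ (l.1 + 1 + τ) {p.1, l.1 + 1})
    · rw [mem_TT]
      rintro ⟨q, h, _⟩
      cases h
    · intro t ht
      rw [mem_TT] at ht
      obtain ⟨q, rfl, h1, h2⟩ := ht
      rw [mem_insert, mem_singleton] at h2
      rw [all]
      rintro rfl
      exact h2 (Or.inl rfl)
    · intro t ht
      rw [mem_TT] at ht
      obtain ⟨q, rfl, h1, h2⟩ := ht
      rw [mem_insert, mem_singleton] at h2
      rw [arl]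
      exact ⟨h1, fun h => h2 (Or.inr h)⟩
    · exact TT_clique
    · have h1 := card_TT (b := b) (τ := τ) (m := l.1 + 1 + τ) (by omega) {p.1, l.1 + 1}
      have h2 := card_le_two p.1 (l.1 + 1)
      omega
  · apply Nf_lt_nested F (HG b τ) (.inl p) (.inr i) (.inl ⟨i.1 + 1, by omega⟩) (by simp) hdom
      (by
        rw [all]
        intro h
        exact hpi (congrArg Fin.val h)) (by rw [arl]; simp) (by simp) a0 b0 hab
      (TT b τ (b + τ) {p.1, i.1 + 1})
    · rw [mem_TT]
      rintro ⟨q, h, _⟩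
      cases h
    · intro t ht
      rw [mem_TT] at ht
      obtain ⟨q, rfl, h1, h2⟩ := ht
      rw [mem_insert, mem_singleton] at h2
      rw [all]
      rintro rfl
      exact h2 (Or.inl rfl)
    · intro t ht
      rw [mem_TT] at ht
      obtain ⟨q, rfl, h1, h2⟩ := ht
      rw [mem_insert, mem_singleton] at h2
      rw [all]
      intro h
      exact h2 (Or.inr (congrArg Fin.val h).symm)
    · exact TT_clique
    · have h1 := card_TT (b := b) (τ := τ) (m := b + τ) (by omega) {p.1, i.1 + 1}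
      have h2 := card_le_two p.1 (i.1 + 1)
      omega

/-- case 2 -/
theorem case2 (hN : Num k b τ) (a0 b0 : Fin k) (hab : F.Adj a0 b0) (i j : Fin b)
    (hij : i.1 + τ ≤ j.1) :
    Nf F (HG b τ) (.inr i) < Nf F (HG b τ) (.inr j) := by
  have hk := hN.kt
  have hb := hN.tb
  have hi := i.2
  have hj := j.2
  apply Nf_lt_nested F (HG b τ) (.inr j) (.inr i) (.inl ⟨i.1 + 1, by omega⟩) (by
      intro h
      have := congrArg Fin.val (Sum.inr_injective h)
      omega) ?_
      (by rw [arl]; simp only; omega) (by rw [arl]; simp) (by simp) a0 b0 hab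
      (TT b τ (j.1 + 1 + τ) {i.1 + 1, j.1 + 1})
  · rw [mem_TT]
    rintro ⟨q, h, _⟩
    cases h
  · intro t ht
    rw [mem_TT] at ht
    obtain ⟨q, rfl, h1, h2⟩ := ht
    rw [mem_insert, mem_singleton] at h2
    rw [arl]
    exact ⟨h1, fun h => h2 (Or.inr h)⟩
  · intro t ht
    rw [mem_TT] at ht
    obtain ⟨q, rfl, h1, h2⟩ := ht
    rw [mem_insert, mem_singleton] at h2
    rw [all]
    intro h
    exact h2 (Or.inl (congrArg Fin.val h).symm)
  · exact TT_clique
  · have h1 := card_TT (b := b) (τ := τ) (m := j.1 + 1 + τ) (by omega) {i.1 + 1, j.1 + 1}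
    have h2 := card_le_two (i.1 + 1) (j.1 + 1)
    omega
  · rintro (r | l) _ h
    · rw [arl] at h ⊢
      omega
    · exact absurd h (arr _ _)

/-- case 3 -/
theorem case3 (hN : Num k b τ) (a0 b0 : Fin k) (hab : F.Adj a0 b0) (i j : Fin b)
    (hij : i.1 < j.1) (hij' : j.1 < i.1 + τ) :
    Nf F (HG b τ) (.inr i) < Nf F (HG b τ) (.inr j) := by
  classical
  have hk := hN.kt
  have hk3 := hN.k3
  have hb := hN.tb
  have hi := i.2
  have hj := j.2
  have hvw : (Sum.inr j : Vt b τ) ≠ .inr i := by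
    intro h
    have := congrArg Fin.val (Sum.inr_injective h)
    omega
  have hxe : (Sum.inl ⟨i.1 + 1, by omega⟩ : Vt b τ) ≠ .inl ⟨i.1 + 1 + τ, by omega⟩ := by
    intro h
    have := congrArg Fin.val (Sum.inl_injective h)
    simp only at this
    omega
  have hxy : (Sum.inl ⟨i.1 + 1, by omega⟩ : Vt b τ) ≠ .inl ⟨j.1 + 1, by omega⟩ := by
    intro h
    have := congrArg Fin.val (Sum.inl_injective h)
    simp only at this
    omega
  apply two_extra F (HG b τ) (.inr j) (.inr i) (.inl ⟨i.1 + 1, by omega⟩)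
    (.inl ⟨i.1 + 1 + τ, by omega⟩) (.inl ⟨j.1 + 1, by omega⟩) hvw
    (by rw [arl]; simp only; omega) (by rw [arl]; simp) (by rw [arl]; simp only; omega)
    (by rw [arl]; simp) hxe
  · rintro (r | l) hz hz' h
    · rw [arl] at h ⊢
      by_cases hr : r.1 = j.1 + 1
      · left
        congr 1
        exact Fin.ext hr
      · right
        omega
    · exact absurd h (arr _ _)
  · have hex := exch F (HG b τ) (.inr j) (.inr i) (.inl ⟨i.1 + 1, by omega⟩)
      (.inl ⟨j.1 + 1, by omega⟩) (CN (HG b τ) (.inr j) (.inr i)) (by simp) (by simp) (by simp)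
      (by simp) hxy
      (by
        intro h
        have := h.2
        rw [arl] at this
        exact this.2 rfl)
      (by
        intro h
        have := h.1
        rw [arl] at this
        exact this.2 rfl)
      (by
        rintro (r | l) h1 h2 h3 h
        · rw [all] at h ⊢
          intro h'
          exact h3 (by rw [h'])
        · rw [alr] at h ⊢
          simp only at h ⊢
          have : l.1 ≠ i.1 := by
            intro h'
            exact h2 (by rw [Fin.ext h'])
          omega)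
    have hM := M_le F (HG b τ) (.inr j) (.inr i) (.inl ⟨i.1 + 1, by omega⟩)
      (.inl ⟨j.1 + 1, by omega⟩) (CN (HG b τ) (.inr j) (.inr i))
      (dl (HG b τ) (.inr j) (.inr i) (.inl ⟨i.1 + 1, by omega⟩) (.inl ⟨j.1 + 1, by omega⟩))
      univ (fun z _ => mem_univ z) (by simp) hxy (fun h => h.1 rfl) (fun h => h.2.2.2.1 rfl)
    rw [Finset.card_univ, card_Vt] at hM
    have hW := W_ge F (HG b τ) (.inr j) (.inr i) (.inl ⟨i.1 + 1 + τ, by omega⟩)
      (CN (HG b τ) (.inr j) (.inr i)) a0 b0 hab (TT b τ (i.1 + 1 + τ) {i.1 + 1, j.1 + 1}) hvw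
      (by simp) (by simp)
      (by
        rw [mem_TT]
        rintro ⟨q, h, _⟩
        cases h)
      (by
        rw [mem_TT]
        rintro ⟨q, h, _⟩
        cases h)
      (by
        intro t ht
        rw [mem_TT] at ht
        obtain ⟨q, rfl, h1, h2⟩ := ht
        rw [mem_insert, mem_singleton] at h2
        refine ⟨?_, ?_⟩
        · rw [arl]
          omega
        · rw [arl]
          omega)
      (by
        intro t ht
        rw [mem_TT] at ht
        obtain ⟨q, rfl, h1, h2⟩ := ht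
        rw [all]
        intro h
        have := congrArg Fin.val h
        simp only at this
        omega)
      TT_clique
    have h1 := card_TT (b := b) (τ := τ) (m := i.1 + 1 + τ) (by omega) {i.1 + 1, j.1 + 1}
    have h2 := card_le_two (i.1 + 1) (j.1 + 1)
    have h3 := dF_mono (show τ - 4 ≤ (TT b τ (i.1 + 1 + τ) {i.1 + 1, j.1 + 1}).card by omega)
      (k - 2)
    have h4 := hN.n2
    omega

/-- case 4 -/
theorem case4 (hN : Num k b τ) (a0 b0 : Fin k) (hab : F.Adj a0 b0) (p q : Fin (b + τ))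
    (hpq : p.1 < q.1) (h : p.1 = 0 ∨ b < p.1 ∨ p.1 + τ ≤ q.1) :
    Nf F (HG b τ) (.inl q) < Nf F (HG b τ) (.inl p) := by
  have hk := hN.kt
  have hb := hN.tb
  have hp := p.2
  have hq := q.2
  obtain ⟨l, hl1, hl2, hl3⟩ : ∃ l : Fin b, p.1 < l.1 + 1 + τ ∧ p.1 ≠ l.1 + 1 ∧
      ¬ (q.1 < l.1 + 1 + τ ∧ q.1 ≠ l.1 + 1) := by
    by_cases hqb : q.1 ≤ b
    · exact ⟨⟨q.1 - 1, by omega⟩, by simp only; omega, by simp only; omega, by simp only; omega⟩
    · by_cases hpq' : p.1 = q.1 - τ
      · exact ⟨⟨q.1 - τ - 2, by omega⟩, by simp only; omega, by simp only; omega,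
          by simp only; omega⟩
      · exact ⟨⟨q.1 - τ - 1, by omega⟩, by simp only; omega, by simp only; omega,
          by simp only; omega⟩
  apply Nf_lt_nested F (HG b τ) (.inl p) (.inl q) (.inr l) (by
      intro h
      have := congrArg Fin.val (Sum.inl_injective h)
      omega) ?_ (by rw [alr]; exact ⟨hl1, hl2⟩) (by rw [alr]; exact hl3) (by simp) a0 b0 hab
      (TT b τ (l.1 + 1 + τ) {l.1 + 1, p.1, q.1})
  · rw [mem_TT]
    rintro ⟨r, h, _, h2⟩
    rw [mem_insert, mem_insert, mem_singleton] at h2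
    have := congrArg Fin.val (Sum.inl_injective h)
    omega
  · intro t ht
    rw [mem_TT] at ht
    obtain ⟨r, rfl, h1, h2⟩ := ht
    rw [mem_insert, mem_insert, mem_singleton] at h2
    rw [all]
    intro h
    have := congrArg Fin.val h
    omega
  · intro t ht
    rw [mem_TT] at ht
    obtain ⟨r, rfl, h1, h2⟩ := ht
    rw [mem_insert, mem_insert, mem_singleton] at h2
    rw [arl]
    omega
  · exact TT_clique
  · have h1 := card_TT (b := b) (τ := τ) (m := l.1 + 1 + τ) (by omega) {l.1 + 1, p.1, q.1}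
    have h2 := card_le_three (l.1 + 1) p.1 q.1
    omega
  · rintro (r | i) ht h'
    · rw [all]
      rintro rfl
      exact ht rfl
    · rw [alr] at h' ⊢
      have := i.2
      omega

end HG

end Pool.Agent.Helper344HI
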