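import Pool.Agent.Helper344_HI.C

set_option autoImplicit false

namespace Pool.Agent.Helper344HI

open Finset Pool.Agent.Helper517.FIrr

variable {b τ : ℕ} {k : ℕ} (F : SimpleGraph (Fin k))

/-- pure exchange -/
theorem case5 (hN : Num k b τ) (a0 b0 c0 d0 : Fin k) (hab : F.Adj a0 b0) (hcd : F.Adj c0 d0)
    (hne : ¬ (a0 = c0 ∧ b0 = d0)) (hne' : ¬ (a0 = d0 ∧ b0 = c0))
    (p q : Fin (b + τ)) (i j : Fin b) (hpq : p ≠ q) (hij : j.1 < i.1)
    (h1 : (HG b τ).Adj (.inl p) (.inr i)) (h2 : ¬ (HG b τ).Adj (.inl q) (.inr i))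
    (h3 : (HG b τ).Adj (.inl q) (.inr j)) (h4 : ¬ (HG b τ).Adj (.inl p) (.inr j))
    (h5 : ∀ l, (HG b τ).Adj (.inl q) (.inr l) → l = j ∨ (HG b τ).Adj (.inl p) (.inr l))
    (h6 : ∀ l, (HG b τ).Adj (.inl p) (.inr l) → l = i ∨ (HG b τ).Adj (.inl q) (.inr l))
    (h7 : p.1 = i.1 + 1 ∨ q.1 = i.1 + 1)
    (r0 : Fin (b + τ)) (hr1 : r0 ≠ p) (hr2 : r0 ≠ q) (hr3 : (HG b τ).Adj (.inr i) (.inl r0))
    (hr4 : ¬ (HG b τ).Adj (.inr j) (.inl r0)) :
    Nf F (HG b τ) (.inl p) ≠ Nf F (HG b τ) (.inl q) := by
  classical
  have hk := hN.kt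
  have hk3 := hN.k3
  have hb := hN.tb
  have hi := i.2
  have hj := j.2
  have hp := p.2
  have hq := q.2
  have hvw : (Sum.inl p : Vt b τ) ≠ .inl q := fun h => hpq (Sum.inl_injective h)
  have hxy : (Sum.inr i : Vt b τ) ≠ .inr j := by
    intro h
    have := congrArg Fin.val (Sum.inr_injective h)
    omega
  have hone := one_extra F (HG b τ) (.inl p) (.inl q) (.inr i) (.inr j) hvw h1 h2 h3 h4
    (by
      rintro (r | l) hz hz' h
      · right
        rw [all]
        rintro rfl
        exact hz rfl
      · rcases h5 l h with rfl | h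
        · exact Or.inl rfl
        · exact Or.inr h)
    (by
      rintro (r | l) hz hz' h
      · right
        rw [all]
        rintro rfl
        exact hz' rfl
      · rcases h6 l h with rfl | h
        · exact Or.inl rfl
        · exact Or.inr h)
  have hex := exch F (HG b τ) (.inl p) (.inl q) (.inr i) (.inr j) (CN (HG b τ) (.inl p) (.inl q))
    (by simp) (by simp) (by simp) (by simp) hxy (fun h => h2 h.2) (fun h => h4 h.1)
    (by
      rintro (r | l) hz1 hz2 hz3 h
      · rw [arl] at h ⊢
        refine ⟨by omega, ?_⟩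
        intro h'
        rcases h7 with h7 | h7
        · exact hz1 (by rw [Fin.ext (h'.trans h7.symm)])
        · exact hz2 (by rw [Fin.ext (h'.trans h7.symm)])
      · exact absurd h (arr _ _))
  -- the set `Δ`
  obtain ⟨D, hD⟩ : ∃ D, D = dl (HG b τ) (.inl p) (.inl q) (.inr i) (.inr j) := ⟨_, rfl⟩
  rw [← hD] at hex
  obtain ⟨Df, hDf⟩ : ∃ Df : Finset (Vt b τ), ∀ z, z ∈ Df ↔ z ∈ D :=
    ⟨univ.filter (fun z => z ∈ D), fun z => by simp⟩
  have hDr : ∀ z ∈ D, ∃ r : Fin (b + τ), z = .inl r ∧ r ≠ p ∧ r ≠ q ∧
      (HG b τ).Adj (.inr i) (.inl r) ∧ ¬ (HG b τ).Adj (.inr j) (.inl r) := by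
    intro z hz
    rw [hD] at hz
    obtain ⟨g1, g2, g3, g4, g5, g6⟩ := hz
    rcases z with r | l
    · exact ⟨r, rfl, fun h => g1 (by rw [h]), fun h => g2 (by rw [h]), g5, g6⟩
    · exact absurd g5 (arr _ _)
  have hr0 : (Sum.inl r0 : Vt b τ) ∈ D := by
    rw [hD]
    exact ⟨fun h => hr1 (Sum.inl_injective h), fun h => hr2 (Sum.inl_injective h), by simp,
      by simp, hr3, hr4⟩
  have hpD : (Sum.inl p : Vt b τ) ∉ D := by
    intro h
    rw [hD] at h
    exact h.1 rfl
  have hqD : (Sum.inl q : Vt b τ) ∉ D := by
    intro h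
    rw [hD] at h
    exact h.2.1 rfl
  have hjD : (Sum.inr j : Vt b τ) ∉ D := by
    intro h
    rw [hD] at h
    exact h.2.2.2.1 rfl
  have hmain : ((W F (HG b τ) (.inl p) (.inl q) (CN (HG b τ) (.inl p) (.inl q)) (.inr j)).filter
      (IsB F (.inr i) D)).card ≠
      ((W F (HG b τ) (.inl p) (.inl q) (CN (HG b τ) (.inl p) (.inl q)) (.inr i)).filter
      (IsB F (.inr i) D)).card := by
    by_cases hadj : ∀ a b c, F.Adj a b → F.Adj b c → a = c
    · -- a matching
      apply ne_of_gt
      have hzero : ((W F (HG b τ) (.inl p) (.inl q) (CN (HG b τ) (.inl p) (.inl q))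
          (.inr i)).filter (IsB F (.inr i) D)).card = 0 := by
        rw [Finset.card_eq_zero, Finset.eq_empty_iff_forall_notMem]
        intro φ hφ
        rw [mem_filter, mem_W] at hφ
        obtain ⟨⟨⟨g1, _, _, _⟩, a, b', hab', ha, hb'⟩, b'', d, hbd, hb'', hd⟩ := hφ
        have : b'' = b' := g1 (hb''.trans hb'.symm)
        subst this
        have := hadj a b'' d hab' hbd
        subst this
        rw [ha] at hd
        exact hpD hd
      rw [hzero]
      have hac : a0 ≠ c0 := by
        rintro rfl
        exact hne ⟨rfl, (hadj _ _ _ hab.symm hcd)⟩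
      have had : a0 ≠ d0 := by
        rintro rfl
        exact hne' ⟨rfl, (hadj _ _ _ hab.symm hcd.symm)⟩
      have hbc : b0 ≠ c0 := by
        rintro rfl
        exact hne' ⟨hadj _ _ _ hab hcd, rfl⟩
      have hbd : b0 ≠ d0 := by
        rintro rfl
        exact hne ⟨hadj _ _ _ hab hcd.symm, rfl⟩
      apply M_pos F (HG b τ) (.inl p) (.inl q) (.inr i) (.inr j) (.inl r0)
        (CN (HG b τ) (.inl p) (.inl q)) D hr0 hadj a0 b0 c0 d0 hab hcd hac had hbc hbd
        (TT b τ (b + τ) {p.1, q.1, r0.1}) hvw (by simp) (by simp) (by simp) (by simp) hxy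
        (fun h => hr1 (Sum.inl_injective h)) (fun h => hr2 (Sum.inl_injective h)) (by simp) hr3
      · rw [mem_TT]
        rintro ⟨r, h, _, h2⟩
        rw [mem_insert, mem_insert, mem_singleton] at h2
        have := congrArg Fin.val (Sum.inl_injective h)
        omega
      · rw [mem_TT]
        rintro ⟨r, h, _, h2⟩
        rw [mem_insert, mem_insert, mem_singleton] at h2
        have := congrArg Fin.val (Sum.inl_injective h)
        omega
      · rw [mem_TT]
        rintro ⟨r, h, _, h2⟩
        cases h
      · rw [mem_TT]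
        rintro ⟨r, h, _, h2⟩
        cases h
      · rw [mem_TT]
        rintro ⟨r, h, _, h2⟩
        rw [mem_insert, mem_insert, mem_singleton] at h2
        have := congrArg Fin.val (Sum.inl_injective h)
        omega
      · exact TT_clique
      · have h1 := card_TT (b := b) (τ := τ) (m := b + τ) (by omega) {p.1, q.1, r0.1}
        have h2 := card_le_three p.1 q.1 r0.1
        omega
    · -- two adjacent edges
      push Not at hadj
      obtain ⟨a1, b1, c1, hab1, hbc1, hac1⟩ := hadj
      apply ne_of_lt
      have hM := M_le F (HG b τ) (.inl p) (.inl q) (.inr i) (.inr j)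
        (CN (HG b τ) (.inl p) (.inl q)) D Df (fun z hz => (hDf z).2 hz) (by simp) hxy hpD hjD
      rw [card_Vt] at hM
      have hP := P_ge F (HG b τ) (.inl p) (.inl q) (.inr i) (CN (HG b τ) (.inl p) (.inl q)) D Df
        (fun z hz => (hDf z).1 hz) a1 b1 c1 hab1 hbc1 hac1
        (TT b τ (j.1 + 1 + τ) {i.1 + 1, j.1 + 1, p.1, q.1}) hvw (by simp) (by simp)
        (by
          rw [mem_TT]
          rintro ⟨r, h, _, h2⟩
          rw [mem_insert, mem_insert, mem_insert, mem_singleton] at h2
          have := congrArg Fin.val (Sum.inl_injective h)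
          omega)
        (by
          rw [mem_TT]
          rintro ⟨r, h, _, h2⟩
          rw [mem_insert, mem_insert, mem_insert, mem_singleton] at h2
          have := congrArg Fin.val (Sum.inl_injective h)
          omega)
        (by
          intro t ht
          rw [mem_TT] at ht
          obtain ⟨r, rfl, h1, h2⟩ := ht
          rw [mem_insert, mem_insert, mem_insert, mem_singleton] at h2
          refine ⟨?_, ?_⟩
          · rw [all]
            rintro rfl
            omega
          · rw [all]
            rintro rfl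
            omega)
        (by
          intro t ht
          rw [mem_TT] at ht
          obtain ⟨r, rfl, h1, h2⟩ := ht
          rw [mem_insert, mem_insert, mem_insert, mem_singleton] at h2
          rw [arl]
          omega)
        TT_clique
        (by
          intro z hz
          obtain ⟨r, rfl, g1, g2, _, _⟩ := hDr z ((hDf z).1 hz)
          refine ⟨?_, ?_⟩
          · rw [all]
            exact g1.symm
          · rw [all]
            exact g2.symm)
        (by
          intro z hz
          obtain ⟨r, rfl, _, _, g, _⟩ := hDr z ((hDf z).1 hz)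
          exact g)
        (by
          intro z hz t ht
          obtain ⟨r, rfl, _, _, _, g⟩ := hDr z ((hDf z).1 hz)
          rw [mem_TT] at ht
          obtain ⟨s, rfl, h1, h2⟩ := ht
          rw [mem_insert, mem_insert, mem_insert, mem_singleton] at h2
          rw [all]
          rintro rfl
          apply g
          rw [arl]
          omega)
        (fun h => hpD ((hDf _).1 h)) (fun h => hqD ((hDf _).1 h))
      have hpos : 0 < Df.card := Finset.card_pos.2 ⟨_, (hDf _).2 hr0⟩
      have g1 := card_TT (b := b) (τ := τ) (m := j.1 + 1 + τ) (by omega)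
        {i.1 + 1, j.1 + 1, p.1, q.1}
      have g2 := card_le_four (i.1 + 1) (j.1 + 1) p.1 q.1
      have g3 := dF_mono (show τ - 4 ≤
        (TT b τ (j.1 + 1 + τ) {i.1 + 1, j.1 + 1, p.1, q.1}).card by omega) (k - 3)
      have g4 := hN.n1
      calc _ ≤ k.descFactorial 4 * (Df.card * (b + τ + b) ^ (k - 4)) := hM
        _ = k.descFactorial 4 * (b + τ + b) ^ (k - 4) * Df.card := by ring
        _ < (τ - 4).descFactorial (k - 3) * Df.card := Nat.mul_lt_mul_of_pos_right g4 hpos
        _ ≤ _ := (Nat.mul_le_mul_right _ g3).trans hP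
  intro heq
  apply hmain
  omega

/-- two extra neighbours, one dominating -/
theorem case6 (hN : Num k b τ) (a0 b0 : Fin k) (hab : F.Adj a0 b0) (p q : Fin (b + τ))
    (hp1 : 1 ≤ p.1) (hpq : p.1 < q.1) (hqb : q.1 ≤ b) (hqt : τ < q.1) (hqp : q.1 < p.1 + τ) :
    Nf F (HG b τ) (.inl q) < Nf F (HG b τ) (.inl p) := by
  classical
  have hk := hN.kt
  have hk3 := hN.k3
  have hb := hN.tb
  have hvw : (Sum.inl p : Vt b τ) ≠ .inl q := by
    intro h
    have := congrArg Fin.val (Sum.inl_injective h)
    omega
  obtain ⟨x, hx⟩ : ∃ x : Fin b, x.1 + 1 = q.1 := ⟨⟨q.1 - 1, by omega⟩, by simp only; omega⟩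
  obtain ⟨e, he⟩ : ∃ e : Fin b, e.1 + 1 + τ = q.1 := ⟨⟨q.1 - τ - 1, by omega⟩, by simp only; omega⟩
  obtain ⟨y, hy⟩ : ∃ y : Fin b, y.1 + 1 = p.1 := ⟨⟨p.1 - 1, by omega⟩, by simp only; omega⟩
  have hxe : (Sum.inr x : Vt b τ) ≠ .inr e := by
    intro h
    have := congrArg Fin.val (Sum.inr_injective h)
    omega
  have hxy : (Sum.inr x : Vt b τ) ≠ .inr y := by
    intro h
    have := congrArg Fin.val (Sum.inr_injective h)
    omega
  apply two_extra F (HG b τ) (.inl p) (.inl q) (.inr x) (.inr e) (.inr y) hvw
    (by rw [alr]; omega) (by rw [alr]; omega) (by rw [alr]; omega) (by rw [alr]; omega) hxe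
  · rintro (r | l) hz hz' h
    · right
      rw [all]
      rintro rfl
      exact hz rfl
    · rw [alr] at h
      by_cases hl : l.1 = y.1
      · left
        rw [Fin.ext hl]
      · right
        rw [alr]
        omega
  · have hex := exch F (HG b τ) (.inl p) (.inl q) (.inr x) (.inr y)
      (CN (HG b τ) (.inl p) (.inl q)) (by simp) (by simp) (by simp) (by simp) hxy
      (by
        intro h
        have := h.2
        rw [alr] at this
        omega)
      (by
        intro h
        have := h.1
        rw [alr] at this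
        omega)
      (by
        rintro (r | l) h1 h2 h3 h
        · rw [arl] at h ⊢
          have : r.1 ≠ q.1 := by
            intro h'
            exact h2 (by rw [Fin.ext h'])
          omega
        · exact absurd h (arr _ _))
    have hM := M_le F (HG b τ) (.inl p) (.inl q) (.inr x) (.inr y)
      (CN (HG b τ) (.inl p) (.inl q))
      (dl (HG b τ) (.inl p) (.inl q) (.inr x) (.inr y))
      univ (fun z _ => mem_univ z) (by simp) hxy (fun h => h.1 rfl) (fun h => h.2.2.2.1 rfl)
    rw [Finset.card_univ, card_Vt] at hM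
    have hW := W_ge F (HG b τ) (.inl p) (.inl q) (.inr e)
      (CN (HG b τ) (.inl p) (.inl q)) a0 b0 hab (TT b τ q.1 {e.1 + 1, p.1, q.1}) hvw
      (by simp) (by simp)
      (by
        rw [mem_TT]
        rintro ⟨r, h, _, h2⟩
        rw [mem_insert, mem_insert, mem_singleton] at h2
        have := congrArg Fin.val (Sum.inl_injective h)
        omega)
      (by
        rw [mem_TT]
        rintro ⟨r, h, _, h2⟩
        rw [mem_insert, mem_insert, mem_singleton] at h2
        have := congrArg Fin.val (Sum.inl_injective h)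
        omega)
      (by
        intro t ht
        rw [mem_TT] at ht
        obtain ⟨r, rfl, h1, h2⟩ := ht
        rw [mem_insert, mem_insert, mem_singleton] at h2
        refine ⟨?_, ?_⟩
        · rw [all]
          rintro rfl
          omega
        · rw [all]
          rintro rfl
          omega)
      (by
        intro t ht
        rw [mem_TT] at ht
        obtain ⟨r, rfl, h1, h2⟩ := ht
        rw [mem_insert, mem_insert, mem_singleton] at h2
        rw [arl]
        omega)
      TT_clique
    have h1 := card_TT (b := b) (τ := τ) (m := q.1) (by omega) {e.1 + 1, p.1, q.1}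
    have h2 := card_le_three (e.1 + 1) p.1 q.1
    have h3 := dF_mono (show τ - 4 ≤ (TT b τ q.1 {e.1 + 1, p.1, q.1}).card by omega)
      (k - 2)
    have h4 := hN.n2
    omega

/-- the set where an exchange can go wrong is small -/
theorem small (m n : ℕ) (D : Finset (Vt b τ)) (e : ℕ)
    (h : ∀ z ∈ D, ∃ r : Fin (b + τ), z = .inl r ∧ ((m ≤ r.1 ∧ r.1 < n) ∨ r.1 = e)) :
    D.card ≤ n - m + 1 := by
  classical
  have h1 : D.card ≤ (insert e (Finset.Ico m n)).card := by
    apply Finset.card_le_card_of_injOn (fun z : Vt b τ => Sum.elim (fun r => r.1) (fun _ => 0) z)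
    · intro z hz
      obtain ⟨r, rfl, h'⟩ := h z hz
      simp only [Sum.elim_inl, Finset.mem_coe, mem_insert, mem_Ico]
      tauto
    · intro z hz z' hz' hzz
      obtain ⟨r, rfl, _⟩ := h z hz
      obtain ⟨r', rfl, _⟩ := h z' hz'
      simp only [Sum.elim_inl] at hzz
      rw [Fin.ext hzz]
  refine h1.trans ((Finset.card_insert_le _ _).trans ?_)
  rw [Nat.card_Ico]

theorem case7 (hN : Num k b τ) (a0 b0 : Fin k) (hab : F.Adj a0 b0) (p q : Fin (b + τ))
    (hp1 : 1 ≤ p.1) (hpq : p.1 + 2 ≤ q.1) (hpb : p.1 ≤ b) (hqb : b < q.1) (hqp : q.1 < p.1 + τ) :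
    Nf F (HG b τ) (.inl q) < Nf F (HG b τ) (.inl p) := by
  classical
  have hk := hN.kt
  have hk3 := hN.k3
  have hb := hN.tb
  have hvw : (Sum.inl p : Vt b τ) ≠ .inl q := by
    intro h
    have := congrArg Fin.val (Sum.inl_injective h)
    omega
  obtain ⟨e1, he1⟩ : ∃ e : Fin b, e.1 + 1 + τ = q.1 := ⟨⟨q.1 - τ - 1, by omega⟩, by simp only; omega⟩
  obtain ⟨e2, he2⟩ : ∃ e : Fin b, e.1 + 2 + τ = q.1 := ⟨⟨q.1 - τ - 2, by omega⟩, by simp only; omega⟩
  obtain ⟨y, hy⟩ : ∃ y : Fin b, y.1 + 1 = p.1 := ⟨⟨p.1 - 1, by omega⟩, by simp only; omega⟩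
  have hee : (Sum.inr e1 : Vt b τ) ≠ .inr e2 := by
    intro h
    have := congrArg Fin.val (Sum.inr_injective h)
    omega
  have hy1 : (Sum.inr y : Vt b τ) ≠ .inr e1 := by
    intro h
    have := congrArg Fin.val (Sum.inr_injective h)
    omega
  have hy2 : (Sum.inr y : Vt b τ) ≠ .inr e2 := by
    intro h
    have := congrArg Fin.val (Sum.inr_injective h)
    omega
  apply two_extra F (HG b τ) (.inl p) (.inl q) (.inr e1) (.inr e2) (.inr y) hvw
    (by rw [alr]; omega) (by rw [alr]; omega) (by rw [alr]; omega) (by rw [alr]; omega) hee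
  · rintro (r | l) hz hz' h
    · right
      rw [all]
      rintro rfl
      exact hz rfl
    · rw [alr] at h
      by_cases hl : l.1 = y.1
      · left
        rw [Fin.ext hl]
      · right
        rw [alr]
        omega
  · have hyC : (Sum.inr y : Vt b τ) ∉ CN (HG b τ) (.inl p) (.inl q) := by
      intro h
      have := h.1
      rw [alr] at this
      omega
    have he1C : (Sum.inr e1 : Vt b τ) ∉ CN (HG b τ) (.inl p) (.inl q) := by
      intro h
      have := h.2
      rw [alr] at this
      omega
    have he2C : (Sum.inr e2 : Vt b τ) ∉ CN (HG b τ) (.inl p) (.inl q) := by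
      intro h
      have := h.2
      rw [alr] at this
      omega
    have hex1 := exch F (HG b τ) (.inl p) (.inl q) (.inr y) (.inr e1)
      (CN (HG b τ) (.inl p) (.inl q)) (by simp) (by simp) (by simp) (by simp) hy1 hyC he1C
      (by
        rintro (r | l) h1 h2 h3 h
        · rw [arl] at h ⊢
          have : r.1 ≠ p.1 := by
            intro h'
            exact h1 (by rw [Fin.ext h'])
          omega
        · exact absurd h (arr _ _))
    have hex2 := exch F (HG b τ) (.inl p) (.inl q) (.inr y) (.inr e2)
      (CN (HG b τ) (.inl p) (.inl q)) (by simp) (by simp) (by simp) (by simp) hy2 hyC he2C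
      (by
        rintro (r | l) h1 h2 h3 h
        · rw [arl] at h ⊢
          have : r.1 ≠ p.1 := by
            intro h'
            exact h1 (by rw [Fin.ext h'])
          omega
        · exact absurd h (arr _ _))
    have hs : ∀ e : Fin b, (e = e1 ∨ e = e2) → ∃ Df : Finset (Vt b τ),
        (∀ z ∈ dl (HG b τ) (.inl p) (.inl q) (.inr y) (.inr e), z ∈ Df) ∧ Df.card ≤ τ := by
      intro e he
      refine ⟨univ.filter (fun z => z ∈ dl (HG b τ) (.inl p) (.inl q) (.inr y) (.inr e)),
        fun z hz => by simpa using hz, ?_⟩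
      refine (small (q.1 - 1) (p.1 + τ) _ (e.1 + 1) ?_).trans (by omega)
      intro z hz
      rw [mem_filter] at hz
      obtain ⟨_, g1, g2, g3, g4, g5, g6⟩ := hz
      rcases z with r | l
      · refine ⟨r, rfl, ?_⟩
        rw [arl] at g5 g6
        have he' : e.1 + 1 + τ = q.1 ∨ e.1 + 2 + τ = q.1 := by
          rcases he with rfl | rfl
          · exact Or.inl he1
          · exact Or.inr he2
        omega
      · exact absurd g5 (arr _ _)
    obtain ⟨D1, hD1, hc1⟩ := hs e1 (Or.inl rfl)
    obtain ⟨D2, hD2, hc2⟩ := hs e2 (Or.inr rfl)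
    have hP1 := P_le F (HG b τ) (.inl p) (.inl q) (.inr y) (CN (HG b τ) (.inl p) (.inl q))
      (dl (HG b τ) (.inl p) (.inl q) (.inr y) (.inr e1)) D1 hD1 (by simp) (fun h => h.1 rfl)
    have hP2 := P_le F (HG b τ) (.inl p) (.inl q) (.inr y) (CN (HG b τ) (.inl p) (.inl q))
      (dl (HG b τ) (.inl p) (.inl q) (.inr y) (.inr e2)) D2 hD2 (by simp) (fun h => h.1 rfl)
    rw [card_Vt] at hP1 hP2
    have hP1' := hP1.trans (Nat.mul_le_mul_left (k.descFactorial 3)
      (Nat.mul_le_mul_right ((b + τ + b) ^ (k - 3)) hc1))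
    have hP2' := hP2.trans (Nat.mul_le_mul_left (k.descFactorial 3)
      (Nat.mul_le_mul_right ((b + τ + b) ^ (k - 3)) hc2))
    have hW := W_ge F (HG b τ) (.inl p) (.inl q) (.inr y)
      (CN (HG b τ) (.inl p) (.inl q)) a0 b0 hab (TT b τ (p.1 + τ) {p.1, q.1}) hvw
      (by simp) (by simp)
      (by
        rw [mem_TT]
        rintro ⟨r, h, _, h2⟩
        rw [mem_insert, mem_singleton] at h2
        have := congrArg Fin.val (Sum.inl_injective h)
        omega)
      (by
        rw [mem_TT]
        rintro ⟨r, h, _, h2⟩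
        rw [mem_insert, mem_singleton] at h2
        have := congrArg Fin.val (Sum.inl_injective h)
        omega)
      (by
        intro t ht
        rw [mem_TT] at ht
        obtain ⟨r, rfl, h1, h2⟩ := ht
        rw [mem_insert, mem_singleton] at h2
        refine ⟨?_, ?_⟩
        · rw [all]
          rintro rfl
          omega
        · rw [all]
          rintro rfl
          omega)
      (by
        intro t ht
        rw [mem_TT] at ht
        obtain ⟨r, rfl, h1, h2⟩ := ht
        rw [mem_insert, mem_singleton] at h2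
        rw [arl]
        omega)
      TT_clique
    have h1 := card_TT (b := b) (τ := τ) (m := p.1 + τ) (by omega) {p.1, q.1}
    have h2 := card_le_two p.1 q.1
    have h3 := dF_mono (show b - 4 ≤ (TT b τ (p.1 + τ) {p.1, q.1}).card by omega) (k - 2)
    have h4 := hN.n3
    omega

/-- two clique vertices -/
theorem caseK (hN : Num k b τ) (a0 b0 c0 d0 : Fin k) (hab : F.Adj a0 b0) (hcd : F.Adj c0 d0)
    (hne : ¬ (a0 = c0 ∧ b0 = d0)) (hne' : ¬ (a0 = d0 ∧ b0 = c0)) (p q : Fin (b + τ))
    (hpq : p.1 < q.1) : Nf F (HG b τ) (.inl p) ≠ Nf F (HG b τ) (.inl q) := by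
  have hk := hN.kt
  have hk3 := hN.k3
  have hb := hN.tb
  by_cases h4 : p.1 = 0 ∨ b < p.1 ∨ p.1 + τ ≤ q.1
  · exact (case4 F hN a0 b0 hab p q hpq h4).ne'
  · push Not at h4
    obtain ⟨hp0, hpb, hqp⟩ := h4
    by_cases hqt : q.1 ≤ τ
    · obtain ⟨x, hx⟩ : ∃ x : Fin b, x.1 + 1 = q.1 := ⟨⟨q.1 - 1, by omega⟩, by simp only; omega⟩
      obtain ⟨y, hy⟩ : ∃ y : Fin b, y.1 + 1 = p.1 := ⟨⟨p.1 - 1, by omega⟩, by simp only; omega⟩
      apply case5 F hN a0 b0 c0 d0 hab hcd hne hne' p q x y
      · intro h
        rw [h] at hpq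
        omega
      · omega
      · rw [alr]
        omega
      · rw [alr]
        omega
      · rw [alr]
        omega
      · rw [alr]
        omega
      · intro l hl
        rw [alr] at hl
        by_cases h : l.1 = y.1
        · exact Or.inl (Fin.ext h)
        · right
          rw [alr]
          omega
      · intro l hl
        rw [alr] at hl
        by_cases h : l.1 = x.1
        · exact Or.inl (Fin.ext h)
        · right
          rw [alr]
          omega
      · exact Or.inr hx.symm
      · show (⟨p.1 + τ, by omega⟩ : Fin (b + τ)) ≠ p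
        intro h
        have := congrArg Fin.val h
        simp only at this
        omega
      · intro h
        have := congrArg Fin.val h
        simp only at this
        omega
      · rw [arl]
        simp only
        omega
      · rw [arl]
        simp only
        omega
    · by_cases hqb : q.1 ≤ b
      · exact (case6 F hN a0 b0 hab p q (by omega) hpq hqb (by omega) hqp).ne'
      · by_cases hq2 : p.1 + 2 ≤ q.1
        · exact (case7 F hN a0 b0 hab p q (by omega) hq2 hpb (by omega) hqp).ne'
        · -- `p = b`, `q = b + 1`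
          have hp : p.1 = b := by omega
          have hq : q.1 = b + 1 := by omega
          obtain ⟨x, hx⟩ : ∃ x : Fin b, x.1 + 1 = b := ⟨⟨b - 1, by omega⟩, by simp only; omega⟩
          obtain ⟨y, hy⟩ : ∃ y : Fin b, y.1 + τ = b := ⟨⟨b - τ, by omega⟩, by simp only; omega⟩
          apply Ne.symm
          apply case5 F hN a0 b0 c0 d0 hab hcd hne hne' q p x y
          · intro h
            rw [h] at hpq
            omega
          · omega
          · rw [alr]
            omega
          · rw [alr]
            omega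
          · rw [alr]
            omega
          · rw [alr]
            omega
          · intro l hl
            rw [alr] at hl
            by_cases h : l.1 = y.1
            · exact Or.inl (Fin.ext h)
            · right
              rw [alr]
              omega
          · intro l hl
            rw [alr] at hl
            by_cases h : l.1 = x.1
            · exact Or.inl (Fin.ext h)
            · right
              rw [alr]
              omega
          · right
            omega
          · show (⟨y.1 + 1, by omega⟩ : Fin (b + τ)) ≠ q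
            intro h
            have := congrArg Fin.val h
            simp only at this
            omega
          · intro h
            have := congrArg Fin.val h
            simp only at this
            omega
          · rw [arl]
            simp only
            omega
          · rw [arl]
            simp only
            omega

theorem injNf (hN : Num k b τ) (a0 b0 c0 d0 : Fin k) (hab : F.Adj a0 b0) (hcd : F.Adj c0 d0)
    (hne : ¬ (a0 = c0 ∧ b0 = d0)) (hne' : ¬ (a0 = d0 ∧ b0 = c0)) :
    Function.Injective (Nf F (HG b τ)) := by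
  rintro (p | i) (q | j) h
  · rcases lt_trichotomy p.1 q.1 with h1 | h1 | h1
    · exact absurd h (caseK F hN a0 b0 c0 d0 hab hcd hne hne' p q h1)
    · rw [Fin.ext h1]
    · exact absurd h.symm (caseK F hN a0 b0 c0 d0 hab hcd hne hne' q p h1)
  · exact absurd h (case1 F hN a0 b0 hab p j).ne'
  · exact absurd h (case1 F hN a0 b0 hab q i).ne
  · rcases lt_trichotomy i.1 j.1 with h1 | h1 | h1
    · by_cases h2 : j.1 < i.1 + τ
      · exact absurd h (case3 F hN a0 b0 hab i j h1 h2).ne
      · exact absurd h (case2 F hN a0 b0 hab i j (by omega)).ne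
    · rw [Fin.ext h1]
    · by_cases h2 : i.1 < j.1 + τ
      · exact absurd h (case3 F hN a0 b0 hab j i h1 h2).ne'
      · exact absurd h (case2 F hN a0 b0 hab j i (by omega)).ne'

end Pool.Agent.Helper344HI
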