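import Pool.Agent.Helper344_HI.D

set_option autoImplicit false

namespace Pool.Agent.Helper344HI

open Finset Pool.Agent.Helper517.FIrr

theorem dF_ge (m r s : ℕ) (h : s + r ≤ m + 1) : s ^ r ≤ m.descFactorial r :=
  (Nat.pow_le_pow_left (show s ≤ m + 1 - r by omega) r).trans (Nat.pow_sub_le_descFactorial m r)

theorem num_exists (n K : ℕ) (hn : 3 ≤ n) :
    ∃ b τ, K ≤ b ∧ ∀ k, 3 ≤ k → k ≤ n → Num k b τ := by
  obtain ⟨A, hA⟩ : ∃ A, A = 2 * n ^ 3 * 5 ^ n := ⟨_, rfl⟩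
  have hA1 : 1 ≤ A := by
    rw [hA]
    have : 0 < 2 * n ^ 3 * 5 ^ n := by positivity
    omega
  obtain ⟨E, hE⟩ : ∃ E, E = 8 * A + 2 := ⟨_, rfl⟩
  have hE1 : 1 ≤ E := by omega
  obtain ⟨u, hu⟩ : ∃ u, u = n ^ 4 * E ^ n + n + 10 + K := ⟨_, rfl⟩
  obtain ⟨τ, hτ⟩ : ∃ τ, τ = 2 * u := ⟨_, rfl⟩
  obtain ⟨s, hs⟩ : ∃ s, s = A * τ := ⟨_, rfl⟩
  have hsτ : τ ≤ s := by
    rw [hs]
    exact Nat.le_mul_of_pos_left _ hA1
  have hNE : 2 * s + τ + 2 * s = E * u := by
    rw [hs, hE, hτ]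
    ring
  have hN5 : 2 * s + τ + 2 * s ≤ 5 * s := by omega
  have hpow : ∀ k j, k ≤ n → j ≤ n → k.descFactorial 4 * E ^ j < u := by
    intro k j hk hj
    have h1 : k.descFactorial 4 ≤ n ^ 4 :=
      (Nat.descFactorial_le_pow k 4).trans (Nat.pow_le_pow_left hk 4)
    have h2 : E ^ j ≤ E ^ n := Nat.pow_le_pow_right hE1 hj
    have h3 := Nat.mul_le_mul h1 h2
    omega
  refine ⟨2 * s, τ, by omega, ?_⟩
  intro k hk3 hkn
  have hu0 : 0 < u := by omega
  refine ⟨hk3, by omega, by omega, ?_, ?_, ?_⟩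
  · -- n1
    rw [hNE]
    by_cases hk : k = 3
    · subst hk
      simp [Nat.descFactorial]
    · obtain ⟨j, rfl⟩ : ∃ j, k = j + 4 := ⟨k - 4, by omega⟩
      have e1 : j + 4 - 4 = j := by omega
      have e2 : j + 4 - 3 = j + 1 := by omega
      rw [e1, e2]
      refine lt_of_lt_of_le ?_ (dF_ge (τ - 4) (j + 1) u (by omega))
      rw [mul_pow, pow_succ u j]
      calc (j + 4).descFactorial 4 * (E ^ j * u ^ j)
          = ((j + 4).descFactorial 4 * E ^ j) * u ^ j := by ring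
        _ < u * u ^ j := Nat.mul_lt_mul_of_pos_right (hpow _ _ hkn (by omega)) (by positivity)
        _ = u ^ j * u := by ring
  · -- n2
    rw [hNE]
    by_cases hk : k = 3
    · subst hk
      have : (3 : ℕ).descFactorial 4 = 0 := by decide
      rw [this, zero_mul]
      have e1 : 3 - 2 = 1 := rfl
      rw [e1, Nat.descFactorial_one]
      omega
    · obtain ⟨j, rfl⟩ : ∃ j, k = j + 4 := ⟨k - 4, by omega⟩
      have e1 : j + 4 - 4 = j := by omega
      have e2 : j + 4 - 2 = j + 2 := by omega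
      rw [e1, e2]
      refine lt_of_lt_of_le ?_ (dF_ge (τ - 4) (j + 2) u (by omega))
      calc (j + 4).descFactorial 4 * (E * u * (E * u) ^ j)
          = ((j + 4).descFactorial 4 * E ^ (j + 1)) * u ^ (j + 1) := by ring
        _ < u * u ^ (j + 1) := Nat.mul_lt_mul_of_pos_right (hpow _ _ hkn (by omega)) (by positivity)
        _ = u ^ (j + 2) := by ring
  · -- n3
    obtain ⟨j, rfl⟩ : ∃ j, k = j + 3 := ⟨k - 3, by omega⟩
    have e1 : j + 3 - 3 = j := by omega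
    have e2 : j + 3 - 2 = j + 1 := by omega
    rw [e1, e2]
    refine lt_of_lt_of_le ?_ (dF_ge (2 * s - 4) (j + 1) s (by omega))
    have h1 : (j + 3).descFactorial 3 ≤ n ^ 3 :=
      (Nat.descFactorial_le_pow _ 3).trans (Nat.pow_le_pow_left hkn 3)
    have h2 : (2 * s + τ + 2 * s) ^ j ≤ (5 * s) ^ j := Nat.pow_le_pow_left hN5 j
    have hs0 : 0 < s := by omega
    have hτ0 : 0 < τ := by omega
    have h5 : (5 : ℕ) ^ j < 5 ^ n := Nat.pow_lt_pow_right (by norm_num) (by omega)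
    have hn3 : 0 < 2 * n ^ 3 * τ * s ^ j := by positivity
    calc 2 * ((j + 3).descFactorial 3 * (τ * (2 * s + τ + 2 * s) ^ j))
        ≤ 2 * (n ^ 3 * (τ * (5 * s) ^ j)) := by gcongr
      _ = (2 * n ^ 3 * τ * s ^ j) * 5 ^ j := by rw [mul_pow]; ring
      _ < (2 * n ^ 3 * τ * s ^ j) * 5 ^ n := Nat.mul_lt_mul_of_pos_left h5 hn3
      _ = (A * τ) * s ^ j := by
        rw [hA]
        ring
      _ = s ^ (j + 1) := by
        rw [← hs]
        ring

/-- transport of `Nf` to `Fin m` -/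
theorem inj_fin {k : ℕ} (F : SimpleGraph (Fin k)) {V : Type} [Fintype V] (G : SimpleGraph V)
    (e : V ≃ Fin (Fintype.card V)) (hinj : Function.Injective (Nf F G)) :
    Function.Injective (fun v : Fin (Fintype.card V) =>
      {H : (G.comap e.symm).Subgraph | Nonempty (H.coe ≃g F) ∧ v ∈ H.verts}.ncard) := by
  classical
  have hN : ∀ v, Nf F (G.comap e.symm) v = Nf F G (e.symm v) := by
    intro v
    unfold Nf
    refine Finset.card_bij (fun φ _ => e.symm ∘ φ) ?_ ?_ ?_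
    · intro φ hφ
      rw [mem_Eset] at hφ ⊢
      obtain ⟨⟨h1, h2⟩, a, ha⟩ := hφ
      exact ⟨⟨e.symm.injective.comp h1, fun a b hab => h2 a b hab⟩, a, by simp [ha]⟩
    · intro φ _ ψ _ h
      funext a
      exact e.symm.injective (congrFun h a)
    · intro ψ hψ
      rw [mem_Eset] at hψ
      obtain ⟨⟨h1, h2⟩, a, ha⟩ := hψ
      refine ⟨e ∘ ψ, ?_, by funext a; simp⟩
      rw [mem_Eset]
      refine ⟨⟨e.injective.comp h1, fun a b hab => ?_⟩, a, by simp [ha]⟩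
      simpa using h2 a b hab
  intro u v huv
  have : Nf F (G.comap e.symm) u = Nf F (G.comap e.symm) v := by
    rw [Nf_eq, Nf_eq]
    simp only at huv
    rw [huv]
  rw [hN, hN] at this
  exact e.symm.injective (hinj this)

/-- arbitrarily large members give infinitely many pairwise non-isomorphic ones -/
theorem infinitely {P : ∀ m : ℕ, SimpleGraph (Fin m) → Prop}
    (h : ∀ K : ℕ, ∃ (m : ℕ) (G : SimpleGraph (Fin m)), K ≤ m ∧ P m G) :
    ∃ (m : ℕ → ℕ) (G : ∀ k, SimpleGraph (Fin (m k))), (∀ k, P (m k) (G k)) ∧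
      ∀ k l, k ≠ l → IsEmpty (G k ≃g G l) := by
  classical
  choose m G hm hP using h
  let t : ℕ → ℕ := fun k => Nat.rec 0 (fun _ r => m r + 1) k
  have ht : ∀ k, t (k + 1) = m (t k) + 1 := fun k => rfl
  have hmono : StrictMono (fun k => m (t k)) := by
    apply strictMono_nat_of_lt_succ
    intro k
    have := hm (t (k + 1))
    rw [ht] at this
    show m (t k) < m (t (k + 1))
    rw [ht]
    omega
  refine ⟨fun k => m (t k), fun k => G (t k), fun k => hP (t k), ?_⟩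
  intro k l hkl
  constructor
  intro e
  have h1 := Fintype.card_congr e.toEquiv
  rw [Fintype.card_fin, Fintype.card_fin] at h1
  exact hkl (hmono.injective h1)

theorem two_edges {k : ℕ} (F : SimpleGraph (Fin k)) (h : 2 ≤ F.edgeSet.ncard) :
    ∃ a0 b0 c0 d0, F.Adj a0 b0 ∧ F.Adj c0 d0 ∧ ¬ (a0 = c0 ∧ b0 = d0) ∧ ¬ (a0 = d0 ∧ b0 = c0) := by
  have h' : 1 < F.edgeSet.ncard := h
  rw [Set.one_lt_ncard_iff (Set.toFinite _)] at h'
  obtain ⟨x, y, hx, hy, hxy⟩ := h'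
  induction x using Sym2.ind with
  | _ a b =>
    induction y using Sym2.ind with
    | _ c d =>
      rw [SimpleGraph.mem_edgeSet] at hx hy
      refine ⟨a, b, c, d, hx, hy, ?_, ?_⟩
      · rintro ⟨rfl, rfl⟩
        exact hxy rfl
      · rintro ⟨rfl, rfl⟩
        exact hxy Sym2.eq_swap

theorem big (n : ℕ) (hn : 3 ≤ n) (K : ℕ) : ∃ (m : ℕ) (G : SimpleGraph (Fin m)), K ≤ m ∧
    ∀ k, k ≤ n → ∀ F : SimpleGraph (Fin k), 2 ≤ F.edgeSet.ncard →
      Function.Injective (fun v : Fin m =>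
        {H : G.Subgraph | Nonempty (H.coe ≃g F) ∧ v ∈ H.verts}.ncard) := by
  obtain ⟨b, τ, hK, hN⟩ := num_exists n K hn
  obtain ⟨e, _⟩ : ∃ e : Vt b τ ≃ Fin (Fintype.card (Vt b τ)), True := ⟨Fintype.equivFin _, trivial⟩
  refine ⟨Fintype.card (Vt b τ), (HG b τ).comap e.symm, ?_, ?_⟩
  · rw [card_Vt]
    omega
  · intro k hk F hF
    obtain ⟨a0, b0, c0, d0, hab, hcd, hne, hne'⟩ := two_edges F hF
    have hk3 : 3 ≤ k := by
      by_contra hlt
      have h1 := a0.2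
      have h2 := b0.2
      have h3 := c0.2
      have h4 := d0.2
      have h5 : a0.1 ≠ b0.1 := fun h => hab.ne (Fin.ext h)
      have h6 : c0.1 ≠ d0.1 := fun h => hcd.ne (Fin.ext h)
      by_cases h7 : a0.1 = c0.1
      · exact hne ⟨Fin.ext h7, Fin.ext (by omega)⟩
      · exact hne' ⟨Fin.ext (by omega), Fin.ext (by omega)⟩
    exact inj_fin F (HG b τ) e (injNf F (hN k hk3 hk) a0 b0 c0 d0 hab hcd hne hne')

end Pool.Agent.Helper344HI
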